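import Pool.Agent.W699.WH.Mean

/-!
# The projection onto the copy of `ℓ₁`
-/

set_option autoImplicit false

namespace Pool.Agent.W699.WH

open Filter Topology

/-- The embedding of `ℓ₁` in the Lipschitz functions on `GN`. -/
noncomputable def iota : EE →ₗ[ℝ] (GN → ℝ) where
  toFun z := fun x => (show ℕ →₀ ℕ from x).sum fun n v => (v : ℝ) * z n
  map_add' := by
    intro y z
    funext x
    simp only [Finsupp.sum, Pi.add_apply]
    rw [← Finset.sum_add_distrib]
    refine Finset.sum_congr rfl fun n _ => ?_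
    rw [lp.coeFn_add]
    change _ * (y n + z n) = _
    ring
  map_smul' := by
    intro c z
    funext x
    simp only [Finsupp.sum, RingHom.id_apply, Pi.smul_apply, smul_eq_mul]
    rw [Finset.mul_sum]
    refine Finset.sum_congr rfl fun n _ => ?_
    rw [lp.coeFn_smul]
    change _ * (c * z n) = _
    ring

lemma iota_apply (z : EE) (x : GN) :
    iota z x = (show ℕ →₀ ℕ from x).sum fun n v => (v : ℝ) * z n := rfl

lemma iota_zero (z : EE) : iota z 0 = 0 :=
  Finsupp.sum_zero_index (α := ℕ) (M := ℕ) (h := fun n v => (v : ℝ) * z n)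

lemma iota_add (z : EE) (x y : GN) : iota z (x + y) = iota z x + iota z y := by
  rw [iota_apply, iota_apply, iota_apply]
  exact Finsupp.sum_add_index' (fun n => by simp) (fun n u v => by push_cast; ring)

lemma iota_gs (z : EE) (i : ℕ) : iota z (gs i 1) = z i := by
  rw [iota_apply]
  change (Finsupp.single i 1 : ℕ →₀ ℕ).sum (fun n v => (v : ℝ) * z n) = z i
  rw [Finsupp.sum_single_index (by simp)]
  simp

lemma iota_lip (z : EE) (x y : GN) : |iota z x - iota z y| ≤ ‖z‖ * dist x y := by
  classical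
  have e : ∀ (x : GN) (s : Finset ℕ), (show ℕ →₀ ℕ from x).support ⊆ s →
      iota z x = ∑ n ∈ s, (gev x n : ℝ) * z n := by
    intro x s hs
    rw [iota_apply]
    exact Finsupp.sum_of_support_subset _ hs _ (fun n _ => by simp)
  set s := (show ℕ →₀ ℕ from x).support ∪ (show ℕ →₀ ℕ from y).support with hs
  rw [e x s Finset.subset_union_left, e y s Finset.subset_union_right, ← Finset.sum_sub_distrib]
  calc |∑ n ∈ s, ((gev x n : ℝ) * z n - (gev y n : ℝ) * z n)|
      ≤ ∑ n ∈ s, |(gev x n : ℝ) * z n - (gev y n : ℝ) * z n| := Finset.abs_sum_le_sum_abs _ _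
    _ ≤ ∑ n ∈ s, |z n| * dist x y := by
        refine Finset.sum_le_sum fun n _ => ?_
        rw [← sub_mul, abs_mul, mul_comm]
        exact mul_le_mul_of_nonneg_left (abs_le_gdist x y n) (abs_nonneg _)
    _ = (∑ n ∈ s, |z n|) * dist x y := by rw [Finset.sum_mul]
    _ ≤ ‖z‖ * dist x y := mul_le_mul_of_nonneg_right (EE_partial z s) dist_nonneg

/-- the vector `∑_{i ∈ Q} e_i` -/
noncomputable def hQ (Q : Finset ℕ) : GN := ∑ i ∈ Q, gs i 1

lemma gev_sum (Q : Finset ℕ) (f : ℕ → GN) (n : ℕ) :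
    gev (∑ i ∈ Q, f i) n = ∑ i ∈ Q, gev (f i) n := by
  classical
  induction Q using Finset.induction_on with
  | empty => simp; rfl
  | insert a Q ha ih => rw [Finset.sum_insert ha, Finset.sum_insert ha, gev_add, ih]

lemma gev_hQ (Q : Finset ℕ) (n : ℕ) : gev (hQ Q) n = if n ∈ Q then 1 else 0 := by
  classical
  rw [hQ, gev_sum]
  simp only [gev_gs]
  rw [Finset.sum_ite_eq]

/-- the Lipschitz functions -/
def LipS : Submodule ℝ (GN → ℝ) where
  carrier := {f | ∃ K : NNReal, LipschitzWith K f}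
  add_mem' := by
    rintro f g ⟨K, hK⟩ ⟨L, hL⟩
    exact ⟨K + L, hK.add hL⟩
  zero_mem' := ⟨0, LipschitzWith.const 0⟩
  smul_mem' := by
    rintro c f ⟨K, hK⟩
    refine ⟨‖c‖₊ * K, LipschitzWith.of_dist_le_mul fun x y => ?_⟩
    rw [Pi.smul_apply, Pi.smul_apply, smul_eq_mul, smul_eq_mul, Real.dist_eq, ← mul_sub, abs_mul]
    have := hK.dist_le_mul x y
    rw [Real.dist_eq] at this
    rw [NNReal.coe_mul, coe_nnnorm, Real.norm_eq_abs, mul_assoc]
    exact mul_le_mul_of_nonneg_left this (abs_nonneg _)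

theorem exists_rho : ∃ ρ : (GN → ℝ) →ₗ[ℝ] EE,
    (∀ (g : GN → ℝ) (K : NNReal), LipschitzWith K g → ‖ρ g‖ ≤ K) ∧ ∀ z : EE, ρ (iota z) = z := by
  classical
  obtain ⟨μ, hμ1, hμ2, hμ3⟩ := exists_mean
  have hdiff : ∀ (f : GN → ℝ) (K : NNReal), LipschitzWith K f → ∀ h : GN, ∀ x,
      |(tr h f - f) x| ≤ K * dist h 0 := by
    intro f K hK h x
    have h1 := hK.dist_le_mul (x + h) x
    rw [Real.dist_eq] at h1
    have h2 : dist (x + h) x ≤ dist h 0 := by
      rw [gdist_le dist_nonneg]
      intro n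
      have := abs_le_gdist h 0 n
      have e : gev (0 : GN) n = 0 := rfl
      rw [e] at this
      rw [gev_add]
      push_cast at this ⊢
      rw [add_sub_cancel_left]
      simpa using this
    calc |(tr h f - f) x| = |f (x + h) - f x| := rfl
      _ ≤ K * dist (x + h) x := h1
      _ ≤ K * dist h 0 := mul_le_mul_of_nonneg_left h2 K.2
  -- additivity
  have hadd : ∀ (f : GN → ℝ) (K : NNReal), LipschitzWith K f → ∀ Q : Finset ℕ,
      μ (tr (hQ Q) f - f) = ∑ i ∈ Q, μ (tr (gs i 1) f - f) := by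
    intro f K hK Q
    induction Q using Finset.induction_on with
    | empty =>
      have : tr (hQ ∅) f = f := by
        funext x
        rw [tr_apply]
        simp [hQ]
      rw [this, sub_self, map_zero, Finset.sum_empty]
    | insert j Q hj ih =>
      rw [Finset.sum_insert hj, ← ih]
      have h1 : tr (hQ (insert j Q)) f - f =
          (tr (gs j 1) f - f) + tr (gs j 1) (tr (hQ Q) f - f) := by
        funext x
        have e : x + hQ (insert j Q) = x + gs j 1 + hQ Q := by
          rw [hQ, Finset.sum_insert hj, hQ, add_assoc]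
        change f (x + hQ (insert j Q)) - f x =
          (f (x + gs j 1) - f x) + (f (x + gs j 1 + hQ Q) - f (x + gs j 1))
        rw [e]
        ring
      rw [h1, map_add, hμ2 _ _ (hdiff f K hK (hQ Q)) j]
  -- the bound
  have hbound : ∀ (f : GN → ℝ) (K : NNReal), LipschitzWith K f → ∀ s : Finset ℕ,
      ∑ i ∈ s, |μ (tr (gs i 1) f - f)| ≤ K := by
    intro f K hK s
    set c : ℕ → ℝ := fun i => μ (tr (gs i 1) f - f) with hc
    set P := s.filter fun i => 0 ≤ c i with hP
    set Q := s.filter fun i => ¬ 0 ≤ c i with hQ'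
    have h1 : ∑ i ∈ s, |c i| = ∑ i ∈ P, c i - ∑ i ∈ Q, c i := by
      rw [← Finset.sum_filter_add_sum_filter_not s (fun i => 0 ≤ c i)]
      have e1 : ∑ i ∈ P, |c i| = ∑ i ∈ P, c i :=
        Finset.sum_congr rfl fun i hi => abs_of_nonneg (Finset.mem_filter.1 hi).2
      have e2 : ∑ i ∈ Q, |c i| = - ∑ i ∈ Q, c i := by
        rw [← Finset.sum_neg_distrib]
        exact Finset.sum_congr rfl fun i hi => abs_of_neg (not_le.1 (Finset.mem_filter.1 hi).2)
      rw [e1, e2]
      ring
    rw [h1, ← hadd f K hK P, ← hadd f K hK Q, ← map_sub]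
    refine (le_abs_self _).trans (hμ1 _ K fun x => ?_)
    have e : (tr (hQ P) f - f - (tr (hQ Q) f - f)) x = f (x + hQ P) - f (x + hQ Q) := by
      change (f (x + hQ P) - f x) - (f (x + hQ Q) - f x) = _
      ring
    rw [e]
    have h2 := hK.dist_le_mul (x + hQ P) (x + hQ Q)
    rw [Real.dist_eq] at h2
    have h3 : dist (x + hQ P) (x + hQ Q) ≤ 1 := by
      rw [gdist_le zero_le_one]
      intro n
      rw [gev_add, gev_add, gev_hQ, gev_hQ]
      push_cast
      rw [add_sub_add_left_eq_sub]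
      split_ifs <;> simp
    calc |f (x + hQ P) - f (x + hQ Q)| ≤ K * dist (x + hQ P) (x + hQ Q) := h2
      _ ≤ K * 1 := mul_le_mul_of_nonneg_left h3 K.2
      _ = K := mul_one _
  have hex : ∀ f : LipS, ∃ y : EE, ∀ n, y n = μ (tr (gs n 1) f.1 - f.1) := by
    rintro ⟨f, K, hK⟩
    obtain ⟨y, hy, _⟩ := EE_mk K.2 (hbound f K hK)
    exact ⟨y, hy⟩
  choose F hF using hex
  let F' : LipS →ₗ[ℝ] EE :=
    { toFun := F
      map_add' := by
        intro f g
        apply EE_ext
        intro n
        rw [lp.coeFn_add]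
        change F (f + g) n = F f n + F g n
        rw [hF, hF, hF, ← map_add]
        congr 1
        rw [show (f + g).1 = f.1 + g.1 from rfl, map_add]
        abel
      map_smul' := by
        intro c f
        apply EE_ext
        intro n
        rw [lp.coeFn_smul]
        change F (c • f) n = c * F f n
        rw [hF, hF, show (c • f).1 = c • f.1 from rfl, map_smul, ← smul_sub, map_smul, smul_eq_mul] }
  obtain ⟨ρ, hρ⟩ := F'.exists_extend
  have hρF : ∀ f : LipS, ρ f.1 = F f := fun f => by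
    have : (ρ.comp LipS.subtype) f = F' f := by rw [hρ]
    exact this
  refine ⟨ρ, ?_, ?_⟩
  · intro g K hK
    have h1 : ρ g = F ⟨g, K, hK⟩ := hρF ⟨g, K, hK⟩
    rw [h1]
    obtain ⟨y, hy, hyn⟩ := EE_mk K.2 (hbound g K hK)
    have : F ⟨g, K, hK⟩ = y := EE_ext fun n => by rw [hF, hy]
    rw [this]
    exact hyn
  · intro z
    have hz : iota z ∈ LipS := ⟨‖z‖₊, LipschitzWith.of_dist_le_mul fun x y => by
      rw [Real.dist_eq]; exact iota_lip z x y⟩
    have h1 : ρ (iota z) = F ⟨iota z, hz⟩ := hρF ⟨iota z, hz⟩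
    rw [h1]
    apply EE_ext
    intro n
    rw [hF]
    have : tr (gs n 1) (iota z) - iota z = fun _ => z n := by
      funext x
      change iota z (x + gs n 1) - iota z x = z n
      rw [iota_add, iota_gs]
      ring
    rw [this, hμ3]

end Pool.Agent.W699.WH
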