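import Pool.Agent.W699.WH.Core
import Pool.Agent.W699.WH.Rho

/-!
# Two Lipschitz spaces of the same density that are not weakly homeomorphic
-/

set_option autoImplicit false

namespace Pool.Agent.W699.WH

open Filter Topology

/-- The Lipschitz functions vanishing at the base point. -/
abbrev LL (M : Type) [MetricSpace M] (x₀ : M) : Type :=
  {f : M → ℝ // (∃ K : NNReal, LipschitzWith K f) ∧ f x₀ = 0}

/-- Admissible functionals. -/
def Adm {M : Type} [MetricSpace M] (x₀ : M) (φ : (M → ℝ) →ₗ[ℝ] ℝ) : Prop :=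
  ∃ C : ℝ, ∀ f : M → ℝ, f x₀ = 0 → ∀ K : NNReal, LipschitzWith K f → |φ f| ≤ C * K

/-- The weak topology on the Lipschitz functions vanishing at the base point. -/
abbrev TL (M : Type) [MetricSpace M] (x₀ : M) : TopologicalSpace (LL M x₀) :=
  ⨅ (φ : (M → ℝ) →ₗ[ℝ] ℝ)
    (_ : ∃ C : ℝ, ∀ f : M → ℝ, f x₀ = 0 → ∀ K : NNReal, LipschitzWith K f → |φ f| ≤ C * K),
    TopologicalSpace.induced
      (fun f : {f : M → ℝ // (∃ K : NNReal, LipschitzWith K f) ∧ f x₀ = 0} => φ f.1)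
      (inferInstance : TopologicalSpace ℝ)

lemma TL_continuous {M : Type} [MetricSpace M] (x₀ : M) {φ : (M → ℝ) →ₗ[ℝ] ℝ} (hφ : Adm x₀ φ) :
    @Continuous (LL M x₀) ℝ (TL M x₀) _ (fun f => φ f.1) :=
  continuous_iff_le_induced.2 (iInf_le_of_le φ (iInf_le _ hφ))

/-- A bounded linear map into the Lipschitz functions is weak-to-weak continuous. -/
lemma into_continuous {V : Type*} [NormedAddCommGroup V] [NormedSpace ℝ V]
    {M : Type} [MetricSpace M] (x₀ : M) (J : V →ₗ[ℝ] (M → ℝ))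
    (hJ : ∀ v, LipschitzWith ‖v‖₊ (J v)) (hJ0 : ∀ v, J v x₀ = 0) :
    @Continuous V (LL M x₀) (Tw V) (TL M x₀) (fun v => ⟨J v, ⟨_, hJ v⟩, hJ0 v⟩) := by
  refine continuous_iInf_rng.2 fun φ => continuous_iInf_rng.2 fun hφ =>
    continuous_induced_rng.2 ?_
  obtain ⟨C, hC⟩ := hφ
  let ψ : V →L[ℝ] ℝ := LinearMap.mkContinuous (φ.comp J) C (fun v => by
    have := hC (J v) (hJ0 v) _ (hJ v)
    rw [coe_nnnorm] at this
    exact this)
  exact Tw_continuous ψ

/-- A bounded linear map from the Lipschitz functions is weak-to-weak continuous. -/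
lemma from_continuous {V : Type*} [NormedAddCommGroup V] [NormedSpace ℝ V]
    {M : Type} [MetricSpace M] (x₀ : M) (D : (M → ℝ) →ₗ[ℝ] V)
    (hD : ∀ (f : M → ℝ) (K : NNReal), f x₀ = 0 → LipschitzWith K f → ‖D f‖ ≤ K)
    (ψ : V →L[ℝ] ℝ) :
    @Continuous (LL M x₀) ℝ (TL M x₀) _ (fun f => ψ (D f.1)) := by
  refine TL_continuous x₀ (φ := (ψ : V →ₗ[ℝ] ℝ).comp D) ⟨‖ψ‖, fun f hf0 K hf => ?_⟩
  change |ψ (D f)| ≤ ‖ψ‖ * K
  calc |ψ (D f)| ≤ ‖ψ‖ * ‖D f‖ := ψ.le_opNorm _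
    _ ≤ ‖ψ‖ * K := mul_le_mul_of_nonneg_left (hD f K hf0 hf) (norm_nonneg _)

/-- The identification of the bounded sequences with the Lipschitz functions on `ℕ`. -/
noncomputable def JJ : XX →ₗ[ℝ] (ℕ → ℝ) where
  toFun x := fun n => ∑ i ∈ Finset.range n, x i
  map_add' x y := by
    funext n
    simp [Finset.sum_add_distrib]
  map_smul' c x := by
    funext n
    simp [Finset.mul_sum]

lemma JJ_apply (x : XX) (n : ℕ) : JJ x n = ∑ i ∈ Finset.range n, x i := rfl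

lemma JJ_lip (x : XX) : LipschitzWith ‖x‖₊ (JJ x) := by
  have key : ∀ m n : ℕ, m ≤ n → |JJ x m - JJ x n| ≤ ‖x‖ * ((n : ℝ) - m) := by
    intro m n hmn
    have h1 : JJ x n - JJ x m = ∑ i ∈ Finset.Ico m n, x i := by
      rw [JJ_apply, JJ_apply, ← Finset.sum_range_add_sum_Ico _ hmn]
      ring
    rw [abs_sub_comm, h1]
    calc |∑ i ∈ Finset.Ico m n, x i| ≤ ∑ i ∈ Finset.Ico m n, |x i| :=
          Finset.abs_sum_le_sum_abs _ _
      _ ≤ ∑ i ∈ Finset.Ico m n, ‖x‖ :=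
          Finset.sum_le_sum fun i _ => BoundedContinuousFunction.norm_coe_le_norm x i
      _ = ‖x‖ * ((n : ℝ) - m) := by
          rw [Finset.sum_const, Nat.card_Ico, nsmul_eq_mul, Nat.cast_sub hmn]
          ring
  refine LipschitzWith.of_dist_le_mul fun m n => ?_
  rw [Real.dist_eq, coe_nnnorm, Nat.dist_eq]
  rcases le_total m n with h | h
  · have := key m n h
    have h2 : |(m : ℝ) - n| = n - m := by
      rw [abs_sub_comm, abs_of_nonneg (sub_nonneg.2 (by exact_mod_cast h))]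
    rw [h2]; exact this
  · have := key n m h
    have h2 : |(m : ℝ) - n| = m - n := by
      rw [abs_of_nonneg (sub_nonneg.2 (by exact_mod_cast h))]
    rw [h2, abs_sub_comm]; exact this

lemma JJ_zero (x : XX) : JJ x 0 = 0 := by simp [JJ_apply]

/-- Lipschitz functions on `ℕ`. -/
def LipN : Submodule ℝ (ℕ → ℝ) where
  carrier := {f | ∃ K : NNReal, LipschitzWith K f}
  add_mem' := by
    rintro f g ⟨K, hK⟩ ⟨L, hL⟩
    exact ⟨K + L, hK.add hL⟩
  zero_mem' := ⟨0, LipschitzWith.const 0⟩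
  smul_mem' := by
    rintro c f ⟨K, hK⟩
    refine ⟨‖c‖₊ * K, LipschitzWith.of_dist_le_mul fun x y => ?_⟩
    rw [Pi.smul_apply, Pi.smul_apply, smul_eq_mul, smul_eq_mul, Real.dist_eq, ← mul_sub, abs_mul]
    have := hK.dist_le_mul x y
    rw [Real.dist_eq] at this
    rw [NNReal.coe_mul, coe_nnnorm, Real.norm_eq_abs, mul_assoc]
    exact mul_le_mul_of_nonneg_left this (abs_nonneg _)

lemma lipN_bound {f : ℕ → ℝ} {K : NNReal} (hf : LipschitzWith K f) (n : ℕ) :
    ‖f (n + 1) - f n‖ ≤ K := by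
  have := hf.dist_le_mul (n + 1) n
  rw [Real.dist_eq, Nat.dist_eq] at this
  push_cast at this
  rw [add_sub_cancel_left, abs_one, mul_one] at this
  exact this

theorem exists_DD : ∃ D : (ℕ → ℝ) →ₗ[ℝ] XX,
    (∀ (f : ℕ → ℝ) (K : NNReal), LipschitzWith K f → ‖D f‖ ≤ K) ∧
    (∀ (f : ℕ → ℝ) (K : NNReal), LipschitzWith K f → f 0 = 0 → JJ (D f) = f) := by
  classical
  have hex : ∀ f : LipN, ∃ y : XX, ∀ n, y n = f.1 (n + 1) - f.1 n := by
    rintro ⟨f, K, hK⟩
    exact ⟨BoundedContinuousFunction.ofNormedAddCommGroupDiscrete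
      (fun n => f (n + 1) - f n) K (lipN_bound hK), fun n => rfl⟩
  choose F hF using hex
  let F' : LipN →ₗ[ℝ] XX :=
    { toFun := F
      map_add' := by
        intro f g
        ext n
        rw [BoundedContinuousFunction.add_apply, hF, hF, hF]
        change f.1 (n + 1) + g.1 (n + 1) - (f.1 n + g.1 n) = _
        ring
      map_smul' := by
        intro c f
        ext n
        rw [RingHom.id_apply, BoundedContinuousFunction.smul_apply, hF, hF]
        change c * f.1 (n + 1) - c * f.1 n = c * _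
        ring }
  obtain ⟨D, hD⟩ := F'.exists_extend
  have hDF : ∀ f : LipN, D f.1 = F f := fun f => by
    have : (D.comp LipN.subtype) f = F' f := by rw [hD]
    exact this
  refine ⟨D, ?_, ?_⟩
  · intro f K hK
    have h1 : D f = F ⟨f, K, hK⟩ := hDF ⟨f, K, hK⟩
    rw [h1]
    refine (BoundedContinuousFunction.norm_le K.2).2 fun n => ?_
    rw [hF]
    exact lipN_bound hK n
  · intro f K hK hf0
    have h1 : D f = F ⟨f, K, hK⟩ := hDF ⟨f, K, hK⟩
    rw [h1]
    funext n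
    rw [JJ_apply]
    simp only [hF]
    rw [Finset.sum_range_sub, hf0, sub_zero]

/-- `Lip₀(ℕ)` and `Lip₀(ℕ^(ℕ))` are not weakly homeomorphic. -/
theorem final (e : LL ℕ 0 ≃ LL GN 0)
    (he : @Continuous _ _ (TL ℕ 0) (TL GN 0) e)
    (he' : @Continuous _ _ (TL GN 0) (TL ℕ 0) e.symm) : False := by
  obtain ⟨ρ, hρ1, hρ2⟩ := exists_rho
  obtain ⟨D, hD1, hD2⟩ := exists_DD
  have hi : ∀ z : EE, LipschitzWith ‖z‖₊ (iota z) := fun z =>
    LipschitzWith.of_dist_le_mul fun x y => by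
      rw [Real.dist_eq]; exact iota_lip z x y
  let j : XX → LL ℕ 0 := fun x => ⟨JJ x, ⟨_, JJ_lip x⟩, JJ_zero x⟩
  let i : EE → LL GN 0 := fun z => ⟨iota z, ⟨_, hi z⟩, iota_zero z⟩
  have hj : @Continuous XX (LL ℕ 0) (Tw XX) (TL ℕ 0) j := into_continuous 0 JJ JJ_lip JJ_zero
  have hi' : @Continuous EE (LL GN 0) (Tw EE) (TL GN 0) i := into_continuous 0 iota hi iota_zero
  refine core (fun x => ρ (e (j x)).1) (fun z => D (e.symm (i z)).1) ?_ ?_ ?_
  · intro ψ
    have h1 : @Continuous (LL GN 0) ℝ (TL GN 0) _ (fun f => ψ (ρ f.1)) :=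
      from_continuous 0 ρ (fun f K _ hf => hρ1 f K hf) ψ
    have h2 : @Continuous (LL ℕ 0) ℝ (TL ℕ 0) _ (fun f => ψ (ρ (e f).1)) :=
      @comp_gen (LL ℕ 0) (LL GN 0) ℝ (TL ℕ 0) (TL GN 0) _ _ _ h1 he
    exact @comp_gen XX (LL ℕ 0) ℝ (Tw XX) (TL ℕ 0) _ _ _ h2 hj
  · intro φ
    have h1 : @Continuous (LL ℕ 0) ℝ (TL ℕ 0) _ (fun f => φ (D f.1)) :=
      from_continuous 0 D (fun f K _ hf => hD1 f K hf) φ
    have h2 : @Continuous (LL GN 0) ℝ (TL GN 0) _ (fun f => φ (D (e.symm f).1)) :=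
      @comp_gen (LL GN 0) (LL ℕ 0) ℝ (TL GN 0) (TL ℕ 0) _ _ _ h1 he'
    exact @comp_gen EE (LL GN 0) ℝ (Tw EE) (TL GN 0) _ _ _ h2 hi'
  · intro z
    have h1 : j (D (e.symm (i z)).1) = e.symm (i z) := by
      apply Subtype.ext
      obtain ⟨K, hK⟩ := (e.symm (i z)).2.1
      exact hD2 _ K hK (e.symm (i z)).2.2
    change ρ (e (j (D (e.symm (i z)).1))).1 = z
    rw [h1, Equiv.apply_symm_apply]
    exact hρ2 z

/-- dense subsets of an infinite metric space are infinite. -/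
lemma aleph0_le_dense {Y : Type} [MetricSpace Y] [Infinite Y] {A : Set Y} (hA : Dense A) :
    Cardinal.aleph0 ≤ Cardinal.mk A := by
  rw [Cardinal.aleph0_le_mk_iff]
  by_contra hfin
  rw [not_infinite_iff_finite] at hfin
  have h1 : A.Finite := Set.toFinite A
  have h2 : A = Set.univ := by
    have := hA.closure_eq
    rwa [h1.isClosed.closure_eq] at this
  rw [h2] at h1
  exact Set.infinite_univ h1

end Pool.Agent.W699.WH
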