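import Mathlib

/-!
# Absolute value of a functional on the bounded sequences

For every continuous functional `φ` on `ℕ →ᵇ ℝ` there is a positive continuous functional
`ψ` with `|φ y| ≤ ψ |y|`.
-/

set_option autoImplicit false

namespace Pool.Agent.W699.WH

open BoundedContinuousFunction

/-- The bounded real sequences. -/
abbrev XX := BoundedContinuousFunction ℕ ℝ

/-- Positivity of a functional. -/
def Pos (m : XX →L[ℝ] ℝ) : Prop := ∀ y : XX, 0 ≤ y → 0 ≤ m y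

/-- The value of the absolute value of `φ` at the positive element `y`. -/
noncomputable def pp (φ : XX →L[ℝ] ℝ) (y : XX) : ℝ := sSup {t | ∃ z : XX, |z| ≤ y ∧ t = φ z}

lemma le_app {u v : XX} (h : u ≤ v) (n : ℕ) : u n ≤ v n := h n

lemma nonneg_app {u : XX} (h : 0 ≤ u) (n : ℕ) : 0 ≤ u n := h n

lemma norm_le_of_abs_le {z y : XX} (h : |z| ≤ y) : ‖z‖ ≤ ‖y‖ := by
  refine (norm_le (norm_nonneg _)).2 fun n => ?_
  have h1 : |z n| ≤ y n := by
    have := h n
    simpa using this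
  calc ‖z n‖ = |z n| := Real.norm_eq_abs _
    _ ≤ y n := h1
    _ ≤ |y n| := le_abs_self _
    _ ≤ ‖y‖ := norm_coe_le_norm y n

lemma pp_bdd (φ : XX →L[ℝ] ℝ) (y : XX) : BddAbove {t | ∃ z : XX, |z| ≤ y ∧ t = φ z} := by
  refine ⟨‖φ‖ * ‖y‖, ?_⟩
  rintro t ⟨z, hz, rfl⟩
  calc φ z ≤ ‖φ z‖ := le_abs_self _
    _ ≤ ‖φ‖ * ‖z‖ := φ.le_opNorm z
    _ ≤ ‖φ‖ * ‖y‖ := by gcongr; exact norm_le_of_abs_le hz

lemma le_pp (φ : XX →L[ℝ] ℝ) {z y : XX} (h : |z| ≤ y) : φ z ≤ pp φ y :=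
  le_csSup (pp_bdd φ y) ⟨z, h, rfl⟩

lemma pp_le (φ : XX →L[ℝ] ℝ) {y : XX} {c : ℝ} (hy : 0 ≤ y) (h : ∀ z : XX, |z| ≤ y → φ z ≤ c) :
    pp φ y ≤ c := by
  refine csSup_le ⟨φ 0, 0, by simpa using hy, rfl⟩ ?_
  rintro t ⟨z, hz, rfl⟩
  exact h z hz

lemma pp_nonneg (φ : XX →L[ℝ] ℝ) {y : XX} (hy : 0 ≤ y) : 0 ≤ pp φ y := by
  have := le_pp φ (z := 0) (y := y) (by simpa using hy)
  simpa using this

lemma pp_le_norm (φ : XX →L[ℝ] ℝ) {y : XX} (hy : 0 ≤ y) : pp φ y ≤ ‖φ‖ * ‖y‖ := by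
  refine pp_le φ hy fun z hz => ?_
  calc φ z ≤ ‖φ z‖ := le_abs_self _
    _ ≤ ‖φ‖ * ‖z‖ := φ.le_opNorm z
    _ ≤ ‖φ‖ * ‖y‖ := by gcongr; exact norm_le_of_abs_le hz

lemma pp_add (φ : XX →L[ℝ] ℝ) {y₁ y₂ : XX} (h₁ : 0 ≤ y₁) (h₂ : 0 ≤ y₂) :
    pp φ (y₁ + y₂) = pp φ y₁ + pp φ y₂ := by
  apply le_antisymm
  · refine pp_le φ (add_nonneg h₁ h₂) fun z hz => ?_
    set z₁ : XX := (z ⊓ y₁) ⊔ (-y₁) with hz₁
    have e1 : |z₁| ≤ y₁ := by
      intro n
      have a1 := nonneg_app h₁ n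
      have : z₁ n = max (min (z n) (y₁ n)) (-(y₁ n)) := by simp [hz₁]
      have a3 : (|z₁| : XX) n = |z₁ n| := by simp
      change (|z₁| : XX) n ≤ y₁ n
      rw [a3, this, abs_le]
      constructor
      · exact le_max_right _ _
      · exact max_le (min_le_right _ _) (by linarith)
    have e2 : |z - z₁| ≤ y₂ := by
      intro n
      have a1 := nonneg_app h₁ n
      have a2 := nonneg_app h₂ n
      have b : |z n| ≤ y₁ n + y₂ n := by simpa using hz n
      have : z₁ n = max (min (z n) (y₁ n)) (-(y₁ n)) := by simp [hz₁]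
      have a3 : (|z - z₁| : XX) n = |z n - z₁ n| := by simp
      change (|z - z₁| : XX) n ≤ y₂ n
      rw [a3, this, abs_le]
      rw [abs_le] at b
      constructor
      · rcases le_total (z n) (y₁ n) with h | h
        · rw [min_eq_left h]
          rcases le_total (z n) (-(y₁ n)) with h' | h'
          · rw [max_eq_right h']; linarith
          · rw [max_eq_left h']; linarith
        · rw [min_eq_right h, max_eq_left (by linarith)]; linarith
      · rcases le_total (z n) (y₁ n) with h | h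
        · rw [min_eq_left h]
          rcases le_total (z n) (-(y₁ n)) with h' | h'
          · rw [max_eq_right h']; linarith
          · rw [max_eq_left h']; linarith
        · rw [min_eq_right h, max_eq_left (by linarith)]; linarith
    have : φ z = φ z₁ + φ (z - z₁) := by rw [← map_add]; congr 1; abel
    rw [this]
    exact add_le_add (le_pp φ e1) (le_pp φ e2)
  · have key : ∀ z₁ : XX, |z₁| ≤ y₁ → φ z₁ ≤ pp φ (y₁ + y₂) - pp φ y₂ := by
      intro z₁ hz₁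
      have : pp φ y₂ ≤ pp φ (y₁ + y₂) - φ z₁ := by
        refine pp_le φ h₂ fun z₂ hz₂ => ?_
        have h3 : |z₁ + z₂| ≤ y₁ + y₂ := by
          intro n
          have b1 : |z₁ n| ≤ y₁ n := by simpa using hz₁ n
          have b2 : |z₂ n| ≤ y₂ n := by simpa using hz₂ n
          have b3 : (|z₁ + z₂| : XX) n = |z₁ n + z₂ n| := by simp
          change (|z₁ + z₂| : XX) n ≤ (y₁ + y₂) n
          rw [b3]
          calc |z₁ n + z₂ n| ≤ |z₁ n| + |z₂ n| := abs_add_le _ _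
            _ ≤ y₁ n + y₂ n := add_le_add b1 b2
        have := le_pp φ h3
        rw [map_add] at this
        linarith
      linarith
    have := pp_le φ h₁ key
    linarith

/-- decomposition invariance -/
noncomputable def mm (φ : XX →L[ℝ] ℝ) (y : XX) : ℝ := pp φ (y ⊔ 0) - pp φ ((-y) ⊔ 0)

lemma sup_sub_sup (y : XX) : y ⊔ 0 - (-y) ⊔ 0 = y := by
  ext n
  have : (y ⊔ 0 - (-y) ⊔ 0 : XX) n = max (y n) 0 - max (-(y n)) 0 := by simp
  rw [this]
  rcases le_total (y n) 0 with h | h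
  · rw [max_eq_right h, max_eq_left (by linarith)]; ring
  · rw [max_eq_left h, max_eq_right (by linarith)]; ring

lemma mm_eq (φ : XX →L[ℝ] ℝ) {y u v : XX} (hu : 0 ≤ u) (hv : 0 ≤ v) (h : y = u - v) :
    mm φ y = pp φ u - pp φ v := by
  have h1 : (y ⊔ 0) + v = u + ((-y) ⊔ 0) := by
    have := sup_sub_sup y
    rw [h] at this ⊢
    rw [sub_eq_iff_eq_add] at this
    rw [this]; abel
  have h2 : pp φ ((y ⊔ 0) + v) = pp φ (u + ((-y) ⊔ 0)) := by rw [h1]
  rw [pp_add φ le_sup_right hv, pp_add φ hu le_sup_right] at h2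
  unfold mm
  linarith

lemma mm_add (φ : XX →L[ℝ] ℝ) (y₁ y₂ : XX) : mm φ (y₁ + y₂) = mm φ y₁ + mm φ y₂ := by
  rw [mm_eq φ (y := y₁ + y₂) (u := (y₁ ⊔ 0) + (y₂ ⊔ 0)) (v := ((-y₁) ⊔ 0) + ((-y₂) ⊔ 0))
    (add_nonneg le_sup_right le_sup_right) (add_nonneg le_sup_right le_sup_right)
    (by
      conv_lhs => rw [← sup_sub_sup y₁, ← sup_sub_sup y₂]
      abel)]
  rw [pp_add φ le_sup_right le_sup_right, pp_add φ le_sup_right le_sup_right]
  unfold mm
  ring

lemma mm_of_nonneg (φ : XX →L[ℝ] ℝ) {y : XX} (hy : 0 ≤ y) : mm φ y = pp φ y := by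
  rw [mm_eq φ hy le_rfl (by simp)]
  have : pp φ 0 = 0 := by
    have h1 := pp_le_norm φ (y := 0) le_rfl
    have h2 := pp_nonneg φ (y := 0) le_rfl
    simp at h1
    linarith
  rw [this, sub_zero]

lemma mm_bound (φ : XX →L[ℝ] ℝ) (y : XX) : ‖mm φ y‖ ≤ (2 * ‖φ‖) * ‖y‖ := by
  have h1 : ‖y ⊔ 0‖ ≤ ‖y‖ := by
    refine (norm_le (norm_nonneg _)).2 fun n => ?_
    have : (y ⊔ 0 : XX) n = max (y n) 0 := by simp
    rw [this]
    calc ‖max (y n) 0‖ ≤ |y n| := by
          rw [Real.norm_eq_abs, abs_le]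
          constructor
          · have := abs_nonneg (y n)
            have h2 := le_max_right (y n) 0
            linarith
          · exact max_le (le_abs_self _) (abs_nonneg _)
      _ ≤ ‖y‖ := norm_coe_le_norm y n
  have h2 : ‖(-y) ⊔ 0‖ ≤ ‖y‖ := by
    refine (norm_le (norm_nonneg _)).2 fun n => ?_
    have : ((-y) ⊔ 0 : XX) n = max (-(y n)) 0 := by simp
    rw [this]
    calc ‖max (-(y n)) 0‖ ≤ |y n| := by
          rw [Real.norm_eq_abs, abs_le]
          constructor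
          · have := abs_nonneg (y n)
            have h2 := le_max_right (-(y n)) 0
            linarith
          · exact max_le (neg_le_abs _) (abs_nonneg _)
      _ ≤ ‖y‖ := norm_coe_le_norm y n
  have a1 := pp_le_norm φ (y := y ⊔ 0) le_sup_right
  have a2 := pp_le_norm φ (y := (-y) ⊔ 0) le_sup_right
  have a3 := pp_nonneg φ (y := y ⊔ 0) le_sup_right
  have a4 := pp_nonneg φ (y := (-y) ⊔ 0) le_sup_right
  have b1 : ‖φ‖ * ‖y ⊔ 0‖ ≤ ‖φ‖ * ‖y‖ := by gcongr
  have b2 : ‖φ‖ * ‖(-y) ⊔ 0‖ ≤ ‖φ‖ * ‖y‖ := by gcongr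
  unfold mm
  rw [Real.norm_eq_abs, abs_le]
  constructor <;> nlinarith [norm_nonneg φ, norm_nonneg y]

theorem exists_abs (φ : XX →L[ℝ] ℝ) : ∃ ψ : XX →L[ℝ] ℝ, Pos ψ ∧ ∀ y : XX, |φ y| ≤ ψ |y| := by
  let f : XX →+ ℝ :=
    { toFun := mm φ
      map_zero' := by
        have := mm_add φ 0 0
        simpa using this
      map_add' := mm_add φ }
  have hf : Continuous f := AddMonoidHomClass.continuous_of_bound f (2 * ‖φ‖) (mm_bound φ)
  refine ⟨f.toRealLinearMap hf, ?_, ?_⟩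
  · intro y hy
    change 0 ≤ mm φ y
    rw [mm_of_nonneg φ hy]
    exact pp_nonneg φ hy
  · intro y
    change |φ y| ≤ mm φ |y|
    rw [mm_of_nonneg φ (abs_nonneg y)]
    rw [abs_le]
    constructor
    · have := le_pp φ (z := -y) (y := |y|) (by rw [abs_neg])
      rw [map_neg] at this
      linarith
    · exact le_pp φ le_rfl

/-- A chosen absolute value. -/
noncomputable def ab (φ : XX →L[ℝ] ℝ) : XX →L[ℝ] ℝ := Classical.choose (exists_abs φ)

lemma ab_pos (φ : XX →L[ℝ] ℝ) : Pos (ab φ) := (Classical.choose_spec (exists_abs φ)).1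

lemma le_ab (φ : XX →L[ℝ] ℝ) (y : XX) : |φ y| ≤ ab φ |y| :=
  (Classical.choose_spec (exists_abs φ)).2 y

/-- A positive functional dominating all functionals of a finite set. -/
noncomputable def abS (A : Finset (XX →L[ℝ] ℝ)) : XX →L[ℝ] ℝ := ∑ a ∈ A, ab a

lemma abS_pos (A : Finset (XX →L[ℝ] ℝ)) : Pos (abS A) := by
  intro y hy
  unfold abS
  rw [_root_.sum_apply]
  exact Finset.sum_nonneg fun a _ => ab_pos a y hy

lemma le_abS (A : Finset (XX →L[ℝ] ℝ)) {a : XX →L[ℝ] ℝ} (ha : a ∈ A) (y : XX) :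
    |a y| ≤ abS A |y| := by
  refine (le_ab a y).trans ?_
  unfold abS
  rw [_root_.sum_apply]
  exact Finset.single_le_sum (f := fun b : XX →L[ℝ] ℝ => ab b |y|)
    (fun b _ => ab_pos b _ (abs_nonneg y)) ha

lemma Pos.mono {m : XX →L[ℝ] ℝ} (hm : Pos m) {u v : XX} (h : u ≤ v) : m u ≤ m v := by
  have := hm (v - u) (sub_nonneg.2 h)
  rw [map_sub] at this
  linarith

end Pool.Agent.W699.WH
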