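import Pool.Agent.W699.WH.Key

/-!
# `ℓ₁` with its weak topology is not a retract of `ℓ_∞` with its weak topology
-/

set_option autoImplicit false

namespace Pool.Agent.W699.WH

open BoundedContinuousFunction Filter Topology

lemma comp_gen {α β γ : Type*} [TopologicalSpace α] [TopologicalSpace β] [TopologicalSpace γ]
    {g : β → γ} {f : α → β} (hg : Continuous g) (hf : Continuous f) :
    Continuous (fun x => g (f x)) := hg.comp hf

lemma const_add_gen {α : Type*} [TopologicalSpace α] {f : α → ℝ} (hf : Continuous f) (c : ℝ) :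
    Continuous (fun x => c + f x) := continuous_const.add hf

lemma sub_const_gen {α : Type*} [TopologicalSpace α] {f : α → ℝ} (hf : Continuous f) (c : ℝ) :
    Continuous (fun x => f x - c) := hf.sub continuous_const

lemma bdd_of_weak_bdd {V : Type*} [NormedAddCommGroup V] [NormedSpace ℝ V] (x : ℕ → V)
    (h : ∀ ψ : V →L[ℝ] ℝ, ∃ C, ∀ n, |ψ (x n)| ≤ C) : ∃ C, ∀ n, ‖x n‖ ≤ C := by
  obtain ⟨C, hC⟩ := banach_steinhaus (g := fun n => NormedSpace.inclusionInDoubleDual ℝ V (x n))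
    (fun ψ => by
      obtain ⟨C, hC⟩ := h ψ
      exact ⟨C, fun n => by
        rw [NormedSpace.dual_def, Real.norm_eq_abs]
        exact hC n⟩)
  refine ⟨C, fun n => ?_⟩
  have := hC n
  rwa [show ‖NormedSpace.inclusionInDoubleDual ℝ V (x n)‖ = ‖x n‖ from
    (NormedSpace.inclusionInDoubleDualLi ℝ).norm_map (x n)] at this

lemma range_sep {V W : Type*} [NormedAddCommGroup V] [NormedSpace ℝ V] [NormedAddCommGroup W]
    (hW : TopologicalSpace.IsSeparable (Set.univ : Set W)) (s : W → V)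
    (hs : ∀ φ : V →L[ℝ] ℝ, Continuous (fun z => φ (s z))) :
    ∃ c : Set V, c.Countable ∧ ∀ z, s z ∈ closure c := by
  obtain ⟨D, hDc, hD⟩ := hW
  have h1 : TopologicalSpace.IsSeparable (s '' D) := (hDc.image s).isSeparable
  have h2 : TopologicalSpace.IsSeparable (Submodule.span ℝ (s '' D) : Set V) := h1.span
  obtain ⟨c, hc, hcs⟩ := h2.closure
  refine ⟨c, hc, fun z => hcs ?_⟩
  by_contra hz
  obtain ⟨f, u, hfx, hfu⟩ := geometric_hahn_banach_point_closed
    (Submodule.convex (Submodule.span ℝ (s '' D))).closure isClosed_closure hz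
  have h3 : ∀ d ∈ D, u ≤ f (s d) := fun d hd =>
    (hfu _ (subset_closure (Submodule.subset_span ⟨d, hd, rfl⟩))).le
  have h4 : IsClosed {w | u ≤ f (s w)} := isClosed_le continuous_const (hs f)
  have h5 : z ∈ {w | u ≤ f (s w)} := by
    have : closure D ⊆ {w | u ≤ f (s w)} := closure_minimal (fun d hd => h3 d hd) h4
    exact this (hD (Set.mem_univ z))
  have h6 : u ≤ f (s z) := h5
  linarith

theorem core (r : XX → EE) (s : EE → XX)
    (hr : ∀ ψ : EE →L[ℝ] ℝ, @Continuous XX ℝ (Tw XX) _ (fun x => ψ (r x)))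
    (hs : ∀ φ : XX →L[ℝ] ℝ, @Continuous EE ℝ (Tw EE) _ (fun z => φ (s z)))
    (hrs : ∀ z, r (s z) = z) : False := by
  classical
  have hrn : ∀ ψ : EE →L[ℝ] ℝ, Continuous (fun x => ψ (r x)) := fun ψ => Tw_norm_continuous (hr ψ)
  have hsn : ∀ φ : XX →L[ℝ] ℝ, Continuous (fun z => φ (s z)) := fun φ => Tw_norm_continuous (hs φ)
  have hsT : ∀ v : XX, @Continuous EE XX _ (Tw XX) (fun z => s z + v) := by
    intro v
    refine continuous_iInf_rng.2 fun φ => continuous_induced_rng.2 ?_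
    have : Continuous (fun z => φ (s z) + φ v) := (hsn φ).add continuous_const
    refine this.congr fun z => ?_
    change φ (s z) + φ v = φ (s z + v)
    rw [map_add]
  have hcomp : ∀ (ψ : EE →L[ℝ] ℝ) (v : XX), Continuous (fun z => ψ (r (s z + v))) := fun ψ v =>
    @comp_gen EE XX ℝ _ (Tw XX) _ (fun x => ψ (r x)) (fun z => s z + v) (hr ψ) (hsT v)
  obtain ⟨c, hc, hcs⟩ := range_sep EE_isSeparable s hsn
  have : Countable c := hc.to_subtype
  let W : ℕ × c → Set EE := fun p =>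
    {z | (∀ y : XX, ‖y - s z‖ ≤ 1 / ((p.1 : ℝ) + 1) → ‖r y‖ ≤ (p.1 : ℝ) + 1) ∧
      ‖s z - p.2.1‖ ≤ 1 / (4 * ((p.1 : ℝ) + 1))}
  have hWclosed : ∀ p, IsClosed (W p) := by
    rintro ⟨n, u⟩
    have h1 : W (n, u) = (⋂ v : {v : XX // ‖v‖ ≤ 1 / ((n : ℝ) + 1)}, ⋂ ψ : {ψ : EE →L[ℝ] ℝ // ‖ψ‖ ≤ 1},
        {z | ψ.1 (r (s z + v.1)) ≤ (n : ℝ) + 1}) ∩
        (⋂ i : ℕ, {z | |s z i - u.1 i| ≤ 1 / (4 * ((n : ℝ) + 1))}) := by
      ext z
      constructor
      · rintro ⟨h1, h2⟩
        refine ⟨?_, ?_⟩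
        · simp only [Set.mem_iInter]
          rintro ⟨v, hv⟩ ⟨ψ, hψ⟩
          have h3 := h1 (s z + v) (by rw [add_sub_cancel_left]; exact hv)
          change ψ (r (s z + v)) ≤ (n : ℝ) + 1
          calc ψ (r (s z + v)) ≤ ‖ψ (r (s z + v))‖ := le_abs_self _
            _ ≤ ‖ψ‖ * ‖r (s z + v)‖ := ψ.le_opNorm _
            _ ≤ 1 * ‖r (s z + v)‖ := mul_le_mul_of_nonneg_right hψ (norm_nonneg _)
            _ = ‖r (s z + v)‖ := one_mul _
            _ ≤ _ := h3
        · simp only [Set.mem_iInter]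
          intro i
          exact (norm_coe_le_norm (s z - u.1) i).trans h2
      · rintro ⟨h1, h2⟩
        simp only [Set.mem_iInter] at h1 h2
        refine ⟨fun y hy => ?_, ?_⟩
        · obtain ⟨ψ, hψ, hψy⟩ := exists_dual_vector'' ℝ (r y)
          have h3 : ψ (r (s z + (y - s z))) ≤ (n : ℝ) + 1 := h1 ⟨y - s z, hy⟩ ⟨ψ, hψ⟩
          rw [add_sub_cancel, hψy] at h3
          exact h3
        · refine (norm_le (by positivity)).2 fun i => ?_
          exact h2 i
    rw [h1]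
    refine IsClosed.inter ?_ ?_
    · refine isClosed_iInter fun v => isClosed_iInter fun ψ => ?_
      exact isClosed_le (hcomp ψ.1 v.1) continuous_const
    · refine isClosed_iInter fun i => ?_
      have h2 : Continuous (fun z => s z i) := hsn (evalCLM ℝ i)
      exact isClosed_le (h2.sub continuous_const).abs continuous_const
  have hWcover : ⋃ p, W p = Set.univ := by
    rw [Set.eq_univ_iff_forall]
    intro z
    -- local boundedness
    have hloc : ∃ n : ℕ, ∀ y : XX, ‖y - s z‖ ≤ 1 / ((n : ℝ) + 1) → ‖r y‖ ≤ (n : ℝ) + 1 := by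
      by_contra hno
      push Not at hno
      choose y hy1 hy2 using hno
      have hlim : Tendsto y atTop (𝓝 (s z)) := by
        rw [tendsto_iff_norm_sub_tendsto_zero]
        refine squeeze_zero (fun n => norm_nonneg _) hy1 ?_
        exact tendsto_one_div_add_atTop_nhds_zero_nat
      obtain ⟨C, hC⟩ := bdd_of_weak_bdd (fun n => r (y n)) (fun ψ => by
        have h1 : Tendsto (fun n => ψ (r (y n))) atTop (𝓝 (ψ (r (s z)))) :=
          ((hrn ψ).tendsto (s z)).comp hlim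
        obtain ⟨C, hC⟩ := h1.abs.bddAbove_range
        exact ⟨C, fun n => hC ⟨n, rfl⟩⟩)
      obtain ⟨n, hn⟩ := exists_nat_gt C
      have := hC n
      have := hy2 n
      linarith
    obtain ⟨n, hn⟩ := hloc
    have h1 := hcs z
    rw [Metric.mem_closure_iff] at h1
    obtain ⟨u, hu, hzu⟩ := h1 (1 / (4 * ((n : ℝ) + 1))) (by positivity)
    rw [dist_eq_norm] at hzu
    exact Set.mem_iUnion.2 ⟨(n, ⟨u, hu⟩), hn, hzu.le⟩
  obtain ⟨⟨n, u⟩, z₀, hz₀⟩ := nonempty_interior_of_iUnion_of_closed hWclosed hWcover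
  obtain ⟨δ₀, hδ₀, hball⟩ := Metric.isOpen_iff.1 isOpen_interior z₀ hz₀
  have hin : ∀ z, ‖z - z₀‖ < δ₀ → z ∈ W (n, u) := fun z hz =>
    interior_subset (hball (by rw [Metric.mem_ball, dist_eq_norm]; exact hz))
  have hz₀W : z₀ ∈ W (n, u) := interior_subset hz₀
  set ε : ℝ := 1 / ((n : ℝ) + 1) with hε
  have hε0 : 0 < ε := by positivity
  have hε1 : ε ≤ 1 := by
    rw [hε, div_le_one (by positivity)]
    have : (0 : ℝ) ≤ n := Nat.cast_nonneg n
    linarith
  have hnear : ∀ z, ‖z - z₀‖ < δ₀ → ‖s z - s z₀‖ ≤ ε := by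
    intro z hz
    have h1 := (hin z hz).2
    have h2 := hz₀W.2
    have e : s z - s z₀ = (s z - u.1) - (s z₀ - u.1) := by abel
    have h3 : 1 / (4 * ((n : ℝ) + 1)) = ε / 4 := by rw [hε]; field_simp
    rw [h3] at h1 h2
    rw [e]
    refine (norm_sub_le _ _).trans ?_
    linarith
  -- apply the key lemma to `G`
  let G : XX → EE := fun d => r (s z₀ + d) - r (s z₀)
  have hG0 : G 0 = 0 := by simp [G]
  have hshift : @Continuous XX XX (Tw XX) (Tw XX) (fun d => s z₀ + d) := by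
    refine continuous_iInf_rng.2 fun φ => continuous_induced_rng.2 ?_
    have h1 : @Continuous XX ℝ (Tw XX) _ (fun d => φ (s z₀) + φ d) :=
      @const_add_gen XX (Tw XX) _ (Tw_continuous φ) (φ (s z₀))
    refine @Continuous.congr XX ℝ (Tw XX) _ _ _ h1 fun z => ?_
    change φ (s z₀) + φ z = φ (s z₀ + z)
    rw [map_add]
  have hG : ∀ ψ : EE →L[ℝ] ℝ, @Continuous XX ℝ (Tw XX) _ (fun d => ψ (G d)) := by
    intro ψ
    have h1 : @Continuous XX ℝ (Tw XX) _ (fun d => ψ (r (s z₀ + d))) :=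
      @comp_gen XX XX ℝ (Tw XX) (Tw XX) _ (fun x => ψ (r x)) (fun d => s z₀ + d)
        (hr ψ) hshift
    have h2 : @Continuous XX ℝ (Tw XX) _ (fun d => ψ (r (s z₀ + d)) - ψ (r (s z₀))) :=
      @sub_const_gen XX (Tw XX) _ h1 (ψ (r (s z₀)))
    refine @Continuous.congr XX ℝ (Tw XX) _ _ _ h2 fun z => ?_
    change ψ (r (s z₀ + z)) - ψ (r (s z₀)) = ψ (r (s z₀ + z) - r (s z₀))
    rw [map_sub]
  have hGb : ∀ d : XX, ‖d‖ ≤ ε → ‖G d‖ ≤ ((n : ℝ) + 1) + ((n : ℝ) + 1) := by
    intro d hd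
    have h1 := hz₀W.1 (s z₀ + d) (by rw [add_sub_cancel_left]; exact hd)
    have h2 := hz₀W.1 (s z₀) (by rw [sub_self, norm_zero]; positivity)
    exact (norm_sub_le _ _).trans (add_le_add h1 h2)
  obtain ⟨A, δ, hδ, hA⟩ := keyG hG0 hG hε1 hGb (η := δ₀ / 2) (by positivity)
  -- finitely many functionals on `EE`
  have hfin : ∀ A : Finset (XX →L[ℝ] ℝ), ∃ B : Finset (EE →L[ℝ] ℝ), ∀ v : EE, (∀ b ∈ B, b v = 0) →
      ∀ a ∈ A, |a (s (z₀ + v) - s z₀)| < δ := by
    intro A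
    induction A using Finset.induction_on with
    | empty => exact ⟨∅, fun v _ a ha => absurd ha (Finset.notMem_empty a)⟩
    | insert a A ha ih =>
      obtain ⟨B, hB⟩ := ih
      obtain ⟨B', δ', hδ', hB'⟩ := Tw_nhds (hs a) z₀ hδ
      refine ⟨B' ∪ B, fun v hv a' ha' => ?_⟩
      rcases Finset.mem_insert.1 ha' with rfl | ha''
      · have := hB' (z₀ + v) (fun b hb => by
          rw [add_sub_cancel_left, hv b (by simp [hb]), abs_zero]
          exact hδ')
        rwa [map_sub]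
      · exact hB v (fun b hb => hv b (by simp [hb])) a' ha''
  obtain ⟨B, hB⟩ := hfin A
  obtain ⟨v, hvn, hvB⟩ := exists_ker B (t := 3 / 4 * δ₀) (by positivity)
  have h1 : ‖s (z₀ + v) - s z₀‖ ≤ ε := hnear _ (by
    rw [add_sub_cancel_left, hvn]; linarith)
  have h2 := hA (s (z₀ + v) - s z₀) h1 (hB v hvB)
  have h3 : G (s (z₀ + v) - s z₀) = v := by
    change r (s z₀ + (s (z₀ + v) - s z₀)) - r (s z₀) = v
    rw [add_sub_cancel, hrs, hrs, add_sub_cancel_left]
  rw [h3, hvn] at h2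
  linarith

end Pool.Agent.W699.WH
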