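import Mathlib

/-!
# Basic facts on `ℓ₁`
-/

set_option autoImplicit false

namespace Pool.Agent.W699.WH

open Filter Topology

/-- The space `ℓ₁`. -/
abbrev EE := lp (fun _ : ℕ => ℝ) 1

lemma EE_hasSum (y : EE) : HasSum (fun n => |y n|) ‖y‖ := by
  have h := lp.hasSum_norm (p := 1) (by norm_num) y
  simpa using h

lemma EE_summable (y : EE) : Summable (fun n => |y n|) := (EE_hasSum y).summable

lemma EE_partial (y : EE) (s : Finset ℕ) : ∑ n ∈ s, |y n| ≤ ‖y‖ :=
  sum_le_hasSum s (fun _ _ => abs_nonneg _) (EE_hasSum y)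

lemma EE_tail (y : EE) {τ : ℝ} (hτ : 0 < τ) (N₀ : ℕ) :
    ∃ N ≥ N₀, ‖y‖ < ∑ n ∈ Finset.range N, |y n| + τ := by
  have h := (EE_hasSum y).tendsto_sum_nat
  have h1 : ∀ᶠ N in atTop, ‖y‖ - τ < ∑ n ∈ Finset.range N, |y n| :=
    h.eventually (lt_mem_nhds (by linarith))
  obtain ⟨N, hN, hN'⟩ := (h1.and (eventually_ge_atTop N₀)).exists
  exact ⟨N, hN', by linarith⟩

lemma EE_mk {f : ℕ → ℝ} {C : ℝ} (hC : 0 ≤ C) (h : ∀ s : Finset ℕ, ∑ n ∈ s, |f n| ≤ C) :
    ∃ y : EE, (∀ n, y n = f n) ∧ ‖y‖ ≤ C := by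
  have hm : Memℓp (E := fun _ : ℕ => ℝ) f 1 := by
    apply memℓp_gen' (C := C)
    intro s
    simpa using h s
  refine ⟨⟨f, hm⟩, fun n => rfl, ?_⟩
  apply lp.norm_le_of_forall_sum_le (by norm_num) hC
  intro s
  simpa using h s

lemma EE_ext {y z : EE} (h : ∀ n, y n = z n) : y = z := by
  apply lp.ext
  funext n
  exact h n

lemma psi_summable {σ : ℕ → ℝ} (hσ : ∀ n, |σ n| ≤ 1) (y : EE) :
    Summable (fun n => σ n * y n) := by
  refine Summable.of_norm_bounded (EE_summable y) fun n => ?_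
  rw [Real.norm_eq_abs, abs_mul]
  calc |σ n| * |y n| ≤ 1 * |y n| := mul_le_mul_of_nonneg_right (hσ n) (abs_nonneg _)
    _ = |y n| := one_mul _

/-- The functional on `ℓ₁` given by a sequence in the unit ball of `ℓ_∞`. -/
noncomputable def psi (σ : ℕ → ℝ) (hσ : ∀ n, |σ n| ≤ 1) : EE →L[ℝ] ℝ :=
  LinearMap.mkContinuous
    { toFun := fun y => ∑' n, σ n * y n
      map_add' := by
        intro y z
        rw [← (psi_summable hσ y).tsum_add (psi_summable hσ z)]
        refine tsum_congr fun n => ?_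
        rw [lp.coeFn_add]
        change σ n * (y n + z n) = _
        ring
      map_smul' := by
        intro c y
        simp only [RingHom.id_apply, smul_eq_mul]
        rw [← tsum_mul_left]
        refine tsum_congr fun n => ?_
        rw [lp.coeFn_smul]
        change σ n * (c * y n) = _
        ring }
    1 (by
      intro y
      change ‖∑' n, σ n * y n‖ ≤ 1 * ‖y‖
      rw [one_mul]
      refine tsum_of_norm_bounded (EE_hasSum y) fun n => ?_
      rw [Real.norm_eq_abs, abs_mul]
      calc |σ n| * |y n| ≤ 1 * |y n| := mul_le_mul_of_nonneg_right (hσ n) (abs_nonneg _)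
        _ = |y n| := one_mul _)

lemma psi_apply (σ : ℕ → ℝ) (hσ : ∀ n, |σ n| ≤ 1) (y : EE) :
    psi σ hσ y = ∑' n, σ n * y n := rfl

lemma psi_ineq (σ : ℕ → ℝ) (hσ : ∀ n, |σ n| ≤ 1) (y : EE) (N : ℕ) :
    ∑ n ∈ Finset.range N, (|y n| + σ n * y n) - psi σ hσ y ≤ ‖y‖ := by
  have h1 : HasSum (fun n => |y n| + σ n * y n) (‖y‖ + psi σ hσ y) :=
    (EE_hasSum y).add (psi_summable hσ y).hasSum
  have h2 := sum_le_hasSum (Finset.range N) (fun n _ => ?_) h1
  · linarith
  · have := abs_le.1 (show |σ n * y n| ≤ |y n| by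
      rw [abs_mul]
      calc |σ n| * |y n| ≤ 1 * |y n| := mul_le_mul_of_nonneg_right (hσ n) (abs_nonneg _)
        _ = |y n| := one_mul _)
    linarith [this.1]

/-- coordinate functional -/
noncomputable def coordF (n : ℕ) : EE →L[ℝ] ℝ := lp.evalCLM ℝ (fun _ : ℕ => ℝ) 1 n

lemma coordF_apply (n : ℕ) (y : EE) : coordF n y = y n := rfl

/-- the standard unit vectors -/
noncomputable def unitV (n : ℕ) : EE := lp.single 1 n 1

lemma unitV_apply (n k : ℕ) : unitV n k = if k = n then 1 else 0 := by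
  unfold unitV
  by_cases h : k = n
  · subst h; simp
  · rw [if_neg h]
    exact lp.single_apply_ne 1 n 1 h

/-- given finitely many functionals there is a nonzero vector in their common kernel. -/
lemma exists_ker (A : Finset (EE →L[ℝ] ℝ)) {t : ℝ} (ht : 0 < t) :
    ∃ v : EE, ‖v‖ = t ∧ ∀ a ∈ A, a v = 0 := by
  classical
  let L : (Fin (A.card + 1) → ℝ) →ₗ[ℝ] EE :=
    { toFun := fun c => ∑ i, c i • unitV i
      map_add' := by
        intro c d
        simp [add_smul, Finset.sum_add_distrib]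
      map_smul' := by
        intro c d
        simp [Finset.smul_sum, smul_smul] }
  have hL : ∀ c (j : Fin (A.card + 1)), L c j = c j := by
    intro c j
    change coordF j (∑ i, c i • unitV i) = c j
    rw [map_sum]
    simp only [map_smul, smul_eq_mul, coordF_apply, unitV_apply]
    rw [Finset.sum_eq_single j]
    · simp
    · intro b _ hb
      have : (j : ℕ) ≠ b := fun h => hb (Fin.ext h.symm)
      simp [this]
    · simp
  let T : (Fin (A.card + 1) → ℝ) →ₗ[ℝ] (A → ℝ) :=
    LinearMap.pi fun a : A => (a.1 : EE →ₗ[ℝ] ℝ).comp L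
  have hker : LinearMap.ker T ≠ ⊥ := by
    apply LinearMap.ker_ne_bot_of_finrank_lt
    simp
  obtain ⟨c, hc, hc0⟩ := Submodule.exists_mem_ne_zero_of_ne_bot hker
  have hv0 : L c ≠ 0 := by
    intro h
    apply hc0
    funext j
    have := hL c j
    rw [h] at this
    simpa using this.symm
  have hvn : 0 < ‖L c‖ := norm_pos_iff.2 hv0
  refine ⟨(t / ‖L c‖) • L c, ?_, ?_⟩
  · rw [norm_smul, Real.norm_eq_abs, abs_of_pos (by positivity)]
    field_simp
  · intro a ha
    rw [map_smul]
    have : T c ⟨a, ha⟩ = 0 := by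
      rw [LinearMap.mem_ker.1 hc]; rfl
    have h2 : a (L c) = 0 := this
    rw [h2, smul_zero]

lemma EE_isSeparable : TopologicalSpace.IsSeparable (Set.univ : Set EE) := by
  have h1 : TopologicalSpace.IsSeparable (Set.range unitV) :=
    (Set.countable_range unitV).isSeparable
  have h2 : TopologicalSpace.IsSeparable (Submodule.span ℝ (Set.range unitV) : Set EE) :=
    h1.span
  have h3 := h2.closure
  refine h3.mono ?_
  intro y _
  have hs := lp.hasSum_single (E := fun _ : ℕ => ℝ) (p := 1) (by norm_num) y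
  refine mem_closure_of_tendsto hs (Filter.Eventually.of_forall fun s => ?_)
  refine Submodule.sum_mem _ fun i _ => ?_
  have : lp.single (E := fun _ : ℕ => ℝ) 1 i (y i) = (y i) • unitV i := by
    unfold unitV
    rw [← lp.single_smul]
    simp
  rw [this]
  exact Submodule.smul_mem _ _ (Submodule.subset_span ⟨i, rfl⟩)

end Pool.Agent.W699.WH
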