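import Mathlib

/-!
# The weak topology of a normed space, in elementary form
-/

set_option autoImplicit false

namespace Pool.Agent.W699.WH

open Filter Topology

/-- The weak topology of a real normed space. -/
def Tw (V : Type*) [NormedAddCommGroup V] [NormedSpace ℝ V] : TopologicalSpace V :=
  ⨅ φ : V →L[ℝ] ℝ, TopologicalSpace.induced (fun v => φ v) (inferInstance : TopologicalSpace ℝ)

variable {V : Type*} [NormedAddCommGroup V] [NormedSpace ℝ V]

lemma Tw_continuous (φ : V →L[ℝ] ℝ) : @Continuous V ℝ (Tw V) _ (fun v => φ v) :=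
  continuous_iff_le_induced.2 (iInf_le _ φ)

/-- Elementary form of weak continuity of a real function. -/
lemma Tw_nhds {g : V → ℝ} (hg : @Continuous V ℝ (Tw V) _ g) (v₀ : V) {τ : ℝ} (hτ : 0 < τ) :
    ∃ A : Finset (V →L[ℝ] ℝ), ∃ δ : ℝ, 0 < δ ∧
      ∀ v, (∀ a ∈ A, |a (v - v₀)| < δ) → |g v - g v₀| < τ := by
  classical
  have h1 : {v | |g v - g v₀| < τ} ∈ @nhds V (Tw V) v₀ := by
    have h2 : @Tendsto V ℝ g (@nhds V (Tw V) v₀) (𝓝 (g v₀)) :=
      (@Continuous.tendsto V ℝ (Tw V) _ g hg v₀)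
    have h3 : Metric.ball (g v₀) τ ∈ 𝓝 (g v₀) := Metric.ball_mem_nhds _ hτ
    have h4 := h2 h3
    refine Filter.mem_of_superset h4 ?_
    intro v hv
    have : dist (g v) (g v₀) < τ := hv
    rwa [Real.dist_eq] at this
  rw [Tw, nhds_iInf] at h1
  have key : ∀ s : Set V, s ∈ (⨅ φ : V →L[ℝ] ℝ, @nhds V (TopologicalSpace.induced (fun v => φ v)
      (inferInstance : TopologicalSpace ℝ)) v₀) →
      ∃ A : Finset (V →L[ℝ] ℝ), ∃ δ : ℝ, 0 < δ ∧ ∀ v, (∀ a ∈ A, |a (v - v₀)| < δ) → v ∈ s := by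
    intro s hs
    refine Filter.iInf_sets_induct hs
      (p := fun s => ∃ A : Finset (V →L[ℝ] ℝ), ∃ δ : ℝ, 0 < δ ∧
        ∀ v, (∀ a ∈ A, |a (v - v₀)| < δ) → v ∈ s) ?_ ?_
    · exact ⟨∅, 1, one_pos, fun v _ => Set.mem_univ v⟩
    · rintro φ s₁ s₂ hs₁ ⟨A, δ, hδ, hA⟩
      rw [nhds_induced, Filter.mem_comap] at hs₁
      obtain ⟨t, ht, hts⟩ := hs₁
      obtain ⟨δ', hδ', hball⟩ := Metric.mem_nhds_iff.1 ht
      refine ⟨insert φ A, min δ δ', lt_min hδ hδ', fun v hv => ⟨?_, ?_⟩⟩
      · apply hts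
        apply hball
        rw [Metric.mem_ball, Real.dist_eq]
        have := hv φ (Finset.mem_insert_self _ _)
        rw [map_sub] at this
        exact this.trans_le (min_le_right _ _)
      · exact hA v fun a ha =>
          (hv a (Finset.mem_insert_of_mem ha)).trans_le (min_le_left _ _)
  exact key _ h1

/-- A weakly continuous real function is norm continuous. -/
lemma Tw_norm_continuous {g : V → ℝ} (hg : @Continuous V ℝ (Tw V) _ g) : Continuous g := by
  have hle : (inferInstance : TopologicalSpace V) ≤ Tw V := by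
    refine le_iInf fun φ => ?_
    exact continuous_iff_le_induced.1 φ.continuous
  exact continuous_le_dom hle hg

end Pool.Agent.W699.WH
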