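import Pool.Agent.W699.WH.LemS
import Pool.Agent.W699.WH.L1
import Pool.Agent.W699.WH.Weak

/-!
# The key lemma: weak-to-norm continuity on bounded sets
-/

set_option autoImplicit false

namespace Pool.Agent.W699.WH

open BoundedContinuousFunction Filter Topology

/-- Strong recursion. -/
noncomputable def seqStrong {α : Type*} (g : (k : ℕ) → (Fin k → α) → α) : ℕ → α
  | k => g k (fun i => seqStrong g i.1)
termination_by k => k
decreasing_by exact i.2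

lemma exists_seqStrong {α : Type*} (P : (k : ℕ) → (Fin k → α) → α → Prop)
    (h : ∀ k f, ∃ a, P k f a) : ∃ u : ℕ → α, ∀ k, P k (fun i => u i.1) (u k) := by
  choose g hg using h
  refine ⟨seqStrong g, fun k => ?_⟩
  have := hg k (fun i => seqStrong g i.1)
  rw [seqStrong]
  exact this

lemma cont_aux {α : Type*} [TopologicalSpace α] (N : ℕ) (g : ℕ → α → ℝ)
    (hg : ∀ n, Continuous (g n)) (c : ℕ → ℝ) :
    Continuous (fun x => ∑ n ∈ Finset.range N, |g n x - c n|) := by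
  apply continuous_finsetSum
  intro i _
  exact ((hg i).sub continuous_const).abs

lemma firstCoords {G : XX → EE} (hG : ∀ ψ : EE →L[ℝ] ℝ, @Continuous XX ℝ (Tw XX) _ (fun d => ψ (G d)))
    (d₀ : XX) (N : ℕ) {τ : ℝ} (hτ : 0 < τ) :
    ∃ A : Finset (XX →L[ℝ] ℝ), ∃ δ : ℝ, 0 < δ ∧ ∀ d, (∀ a ∈ A, |a (d - d₀)| < δ) →
      ∑ n ∈ Finset.range N, |G d n - G d₀ n| < τ := by
  have hc := @cont_aux XX (Tw XX) N (fun n d => coordF n (G d)) (fun n => hG (coordF n))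
    (fun n => G d₀ n)
  obtain ⟨A, δ, hδ, h⟩ := Tw_nhds hc d₀ hτ
  refine ⟨A, δ, hδ, fun d hd => ?_⟩
  have := h d hd
  simp only [coordF_apply, sub_self, abs_zero, Finset.sum_const_zero, sub_zero] at this
  exact (le_abs_self _).trans_lt this

lemma mul_one_sub_norm {z : XX} (hz0 : 0 ≤ z) (hz1 : z ≤ 1) (d : XX) : ‖d * (1 - z)‖ ≤ ‖d‖ := by
  refine (norm_le (norm_nonneg _)).2 fun n => ?_
  have e : (d * (1 - z) : XX) n = d n * (1 - z n) := by simp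
  rw [e, norm_mul]
  have h1 := nonneg_app hz0 n
  have h2 : z n ≤ 1 := le_app hz1 n
  have h3 : ‖1 - z n‖ ≤ 1 := by
    rw [Real.norm_eq_abs, abs_le]; constructor <;> linarith
  calc ‖d n‖ * ‖1 - z n‖ ≤ ‖d‖ * 1 :=
        mul_le_mul (norm_coe_le_norm d n) h3 (norm_nonneg _) (norm_nonneg _)
    _ = ‖d‖ := mul_one _

lemma lemQ {G : XX → EE} (hG : ∀ ψ : EE →L[ℝ] ℝ, @Continuous XX ℝ (Tw XX) _ (fun d => ψ (G d)))
    (d₀ : XX) (hd₀ : ‖d₀‖ ≤ 1) (N : ℕ) {τ θ : ℝ} (hτ : 0 < τ) (hθ : 0 < θ) :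
    ∃ m : XX →L[ℝ] ℝ, Pos m ∧ ‖m‖ ≤ θ ∧ ∃ tol : ℝ, 0 < tol ∧ ∀ z : XX, 0 ≤ z → z ≤ 1 → m z ≤ tol →
      ∑ n ∈ Finset.range N, |G (d₀ * (1 - z)) n - G d₀ n| < τ := by
  obtain ⟨A, δ, hδ, hA⟩ := firstCoords hG d₀ N hτ
  set c := θ / (‖abS A‖ + 1) with hc
  have hc0 : 0 < c := by positivity
  refine ⟨c • abS A, ?_, ?_, c * (δ / 2), by positivity, ?_⟩
  · intro y hy
    have := abS_pos A y hy
    change 0 ≤ c * abS A y
    positivity
  · have h0 : c * ‖abS A‖ ≤ θ := by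
      rw [hc, div_mul_eq_mul_div, div_le_iff₀ (by positivity)]
      nlinarith [norm_nonneg (abS A)]
    refine ContinuousLinearMap.opNorm_le_bound _ hθ.le fun y => ?_
    change ‖c * abS A y‖ ≤ θ * ‖y‖
    rw [norm_mul, Real.norm_eq_abs, abs_of_pos hc0]
    calc c * ‖abS A y‖ ≤ c * (‖abS A‖ * ‖y‖) :=
          mul_le_mul_of_nonneg_left ((abS A).le_opNorm y) hc0.le
      _ = c * ‖abS A‖ * ‖y‖ := by ring
      _ ≤ θ * ‖y‖ := mul_le_mul_of_nonneg_right h0 (norm_nonneg _)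
  · intro z hz0 hz1 hmz
    have h1 : c * abS A z ≤ c * (δ / 2) := hmz
    have h2 : abS A z ≤ δ / 2 := le_of_mul_le_mul_left h1 hc0
    refine hA _ fun a ha => ?_
    have e : d₀ * (1 - z) - d₀ = -(d₀ * z) := by ring
    rw [e, map_neg, abs_neg]
    calc |a (d₀ * z)| ≤ abS A |d₀ * z| := le_abS A ha _
      _ ≤ abS A z := by
          refine (abS_pos A).mono (ge_of_app fun n => ?_)
          have e' : (|d₀ * z| : XX) n = |d₀ n * z n| := by simp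
          rw [e', abs_mul, abs_of_nonneg (nonneg_app hz0 n)]
          have h5 : |d₀ n| ≤ 1 := (norm_coe_le_norm d₀ n).trans hd₀
          calc |d₀ n| * z n ≤ 1 * z n := mul_le_mul_of_nonneg_right h5 (nonneg_app hz0 n)
            _ = z n := one_mul _
      _ < δ := by linarith

/-- The property of the step of the recursive construction. -/
def StepP (G : XX → EE) (ε ω τ δ₀ : ℝ) (A₀ : Finset (XX →L[ℝ] ℝ)) (k : ℕ)
    (f : Fin k → XX × ℕ × (XX →L[ℝ] ℝ)) (u : XX × ℕ × (XX →L[ℝ] ℝ)) : Prop :=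
  ‖u.1‖ ≤ ε ∧ (∀ a ∈ A₀, |a u.1| < δ₀) ∧ ω - τ < ‖G u.1‖ ∧
  (∀ j : Fin k, |(∑ i : Fin k, (f i).2.2) ((f j).1 * u.1)| ≤ (1 / 4) ^ k) ∧
  ∑ n ∈ Finset.range (Finset.univ.sup fun i : Fin k => (f i).2.1), |G u.1 n| < τ ∧
  (Finset.univ.sup fun i : Fin k => (f i).2.1) ≤ u.2.1 ∧
  ‖G u.1‖ < ∑ n ∈ Finset.range u.2.1, |G u.1 n| + τ ∧
  Pos u.2.2 ∧ ‖u.2.2‖ ≤ (1 / 4) ^ k ∧
  ∃ tol : ℝ, 0 < tol ∧ ∀ z : XX, 0 ≤ z → z ≤ 1 → u.2.2 z ≤ tol →
    ∑ n ∈ Finset.range u.2.1, |G (u.1 * (1 - z)) n - G u.1 n| < τ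

lemma exists_step {G : XX → EE} (hG0 : G 0 = 0)
    (hG : ∀ ψ : EE →L[ℝ] ℝ, @Continuous XX ℝ (Tw XX) _ (fun d => ψ (G d)))
    {ε ω τ δ₀ : ℝ} (hε1 : ε ≤ 1) (hτ : 0 < τ) (hδ₀ : 0 < δ₀) (A₀ : Finset (XX →L[ℝ] ℝ))
    (hω : ∀ A : Finset (XX →L[ℝ] ℝ), ∀ δ : ℝ, 0 < δ → ∃ d : XX, ‖d‖ ≤ ε ∧
      (∀ a ∈ A, |a d| < δ) ∧ ω - τ < ‖G d‖)
    (k : ℕ) (f : Fin k → XX × ℕ × (XX →L[ℝ] ℝ)) : ∃ u, StepP G ε ω τ δ₀ A₀ k f u := by
  classical
  obtain ⟨A₁, δ₁, hδ₁, hA₁⟩ := firstCoords hG 0 (Finset.univ.sup fun i : Fin k => (f i).2.1) hτ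
  let A₂ : Finset (XX →L[ℝ] ℝ) := Finset.univ.image fun j : Fin k =>
    (∑ i : Fin k, (f i).2.2).comp (ContinuousLinearMap.mul ℝ XX (f j).1)
  have h4 : (0 : ℝ) < (1 / 4) ^ k := by positivity
  obtain ⟨d, hdε, hd, hdω⟩ := hω (A₀ ∪ A₁ ∪ A₂) (min (min δ₀ δ₁) ((1 / 4) ^ k))
    (lt_min (lt_min hδ₀ hδ₁) h4)
  have hd0 : ∀ a ∈ A₀, |a d| < δ₀ := fun a ha =>
    (hd a (by simp [ha])).trans_le ((min_le_left _ _).trans (min_le_left _ _))
  have hd1 : ∀ a ∈ A₁, |a d| < δ₁ := fun a ha =>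
    (hd a (by simp [ha])).trans_le ((min_le_left _ _).trans (min_le_right _ _))
  have hd2 : ∀ a ∈ A₂, |a d| < (1 / 4) ^ k := fun a ha =>
    (hd a (by simp [ha])).trans_le (min_le_right _ _)
  obtain ⟨N', hN', htail⟩ := EE_tail (G d) hτ (Finset.univ.sup fun i : Fin k => (f i).2.1)
  obtain ⟨m, hm, hmn, tol, htol, hz⟩ := lemQ hG d (hdε.trans hε1) N' hτ h4
  refine ⟨(d, N', m), hdε, hd0, hdω, ?_, ?_, hN', htail, hm, hmn, tol, htol, hz⟩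
  · intro j
    exact (hd2 _ (Finset.mem_image.2 ⟨j, Finset.mem_univ _, rfl⟩)).le
  · have := hA₁ d (fun a ha => by rw [sub_zero]; exact hd1 a ha)
    rw [hG0] at this
    simpa using this

/-- The tail estimate for a geometrically small series of functionals. -/
lemma tail_gen {V : Type*} [NormedAddCommGroup V] [NormedSpace ℝ V] {mu : ℕ → (V →L[ℝ] ℝ)}
    (hmu : ∀ k, ‖mu k‖ ≤ (1 / 4) ^ k) :
    ∃ m : V →L[ℝ] ℝ, (∀ y, HasSum (fun k => mu k y) (m y)) ∧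
      ∀ k y, |m y - (∑ i : Fin k, mu i.1) y| ≤ 4 / 3 * (1 / 4) ^ k * ‖y‖ := by
  have hs : Summable mu := Summable.of_norm_bounded
    (summable_geometric_of_lt_one (by norm_num) (by norm_num : (1 / 4 : ℝ) < 1)) hmu
  have hsum : ∀ y, HasSum (fun k => mu k y) ((∑' k, mu k) y) := fun y =>
    hs.hasSum.mapL (ContinuousLinearMap.apply ℝ ℝ y)
  refine ⟨∑' k, mu k, hsum, fun k y => ?_⟩
  have h1 : HasSum (fun i => mu (i + k) y) ((∑' k, mu k) y - ∑ i ∈ Finset.range k, mu i y) := by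
    refine (hasSum_nat_add_iff (f := fun k => mu k y) k).2 ?_
    simpa using hsum y
  have h2 : (∑ i : Fin k, mu i.1) y = ∑ i ∈ Finset.range k, mu i y := by
    rw [_root_.sum_apply, Finset.sum_range]
  rw [h2, ← h1.tsum_eq]
  have h3 : HasSum (fun i : ℕ => (1 / 4 : ℝ) ^ i * ((1 / 4) ^ k * ‖y‖))
      ((1 - 1 / 4 : ℝ)⁻¹ * ((1 / 4) ^ k * ‖y‖)) :=
    (hasSum_geometric_of_lt_one (by norm_num) (by norm_num)).mul_right _
  have h4 : ‖∑' i, mu (i + k) y‖ ≤ (1 - 1 / 4 : ℝ)⁻¹ * ((1 / 4) ^ k * ‖y‖) := by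
    refine tsum_of_norm_bounded h3 fun i => ?_
    calc ‖mu (i + k) y‖ ≤ ‖mu (i + k)‖ * ‖y‖ := (mu (i + k)).le_opNorm y
      _ ≤ (1 / 4) ^ (i + k) * ‖y‖ := mul_le_mul_of_nonneg_right (hmu _) (norm_nonneg _)
      _ = (1 / 4 : ℝ) ^ i * ((1 / 4) ^ k * ‖y‖) := by rw [pow_add]; ring
  rw [Real.norm_eq_abs] at h4
  refine h4.trans (le_of_eq ?_)
  norm_num
  ring

lemma tail_est {mu : ℕ → (XX →L[ℝ] ℝ)} (hmu : ∀ k, ‖mu k‖ ≤ (1 / 4) ^ k) :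
    ∃ m : XX →L[ℝ] ℝ, (∀ y, HasSum (fun k => mu k y) (m y)) ∧
      ∀ k y, |m y - (∑ i : Fin k, mu i.1) y| ≤ 4 / 3 * (1 / 4) ^ k * ‖y‖ :=
  tail_gen hmu

theorem keyG {G : XX → EE} (hG0 : G 0 = 0)
    (hG : ∀ ψ : EE →L[ℝ] ℝ, @Continuous XX ℝ (Tw XX) _ (fun d => ψ (G d)))
    {ε C : ℝ} (hε1 : ε ≤ 1) (hC : ∀ d : XX, ‖d‖ ≤ ε → ‖G d‖ ≤ C)
    {η : ℝ} (hη : 0 < η) :
    ∃ A : Finset (XX →L[ℝ] ℝ), ∃ δ : ℝ, 0 < δ ∧ ∀ d : XX, ‖d‖ ≤ ε → (∀ a ∈ A, |a d| < δ) →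
      ‖G d‖ ≤ η := by
  classical
  by_contra hcon
  let S : Set ℝ := {t | ∃ A : Finset (XX →L[ℝ] ℝ), ∃ δ : ℝ, 0 < δ ∧ ∀ d : XX, ‖d‖ ≤ ε →
    (∀ a ∈ A, |a d| < δ) → ‖G d‖ ≤ t}
  have hSC : C ∈ S := ⟨∅, 1, one_pos, fun d hd _ => hC d hd⟩
  have hSη : ∀ t ∈ S, η ≤ t := by
    rintro t ⟨A, δ, hδ, hA⟩
    by_contra hlt
    rw [not_le] at hlt
    exact hcon ⟨A, δ, hδ, fun d hd hd' => (hA d hd hd').trans hlt.le⟩
  set ω := sInf S with hωdef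
  have hω0 : 0 < ω := hη.trans_le (le_csInf ⟨_, hSC⟩ hSη)
  set τ := ω / 20 with hτdef
  have hτ : 0 < τ := by positivity
  have hbb : BddBelow S := ⟨η, hSη⟩
  obtain ⟨t₀, ⟨A₀, δ₀, hδ₀, hA₀⟩, ht₀⟩ := exists_lt_of_csInf_lt ⟨_, hSC⟩
    (show sInf S < ω + τ by linarith)
  have hω : ∀ A : Finset (XX →L[ℝ] ℝ), ∀ δ : ℝ, 0 < δ → ∃ d : XX, ‖d‖ ≤ ε ∧
      (∀ a ∈ A, |a d| < δ) ∧ ω - τ < ‖G d‖ := by
    intro A δ hδ
    by_contra hno
    push Not at hno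
    have : ω - τ ∈ S := ⟨A, δ, hδ, hno⟩
    have := csInf_le hbb this
    linarith
  obtain ⟨u, hu⟩ := exists_seqStrong (StepP G ε ω τ δ₀ A₀)
    (exists_step hG0 hG hε1 hτ hδ₀ A₀ hω)
  set D : ℕ → XX := fun k => (u k).1 with hD
  set NN : ℕ → ℕ := fun k => (u k).2.1 with hNN
  set mu : ℕ → (XX →L[ℝ] ℝ) := fun k => (u k).2.2 with hmu
  set NL : ℕ → ℕ := fun k => Finset.univ.sup fun i : Fin k => NN i.1 with hNL
  have p1 : ∀ k, ‖D k‖ ≤ ε := fun k => (hu k).1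
  have p2 : ∀ k, ∀ a ∈ A₀, |a (D k)| < δ₀ := fun k => (hu k).2.1
  have p3 : ∀ k, ω - τ < ‖G (D k)‖ := fun k => (hu k).2.2.1
  have p4 : ∀ k (j : Fin k), |(∑ i : Fin k, mu i.1) (D j.1 * D k)| ≤ (1 / 4) ^ k :=
    fun k => (hu k).2.2.2.1
  have p5 : ∀ k, ∑ n ∈ Finset.range (NL k), |G (D k) n| < τ := fun k => (hu k).2.2.2.2.1
  have p6 : ∀ k, NL k ≤ NN k := fun k => (hu k).2.2.2.2.2.1
  have p7 : ∀ k, ‖G (D k)‖ < ∑ n ∈ Finset.range (NN k), |G (D k) n| + τ :=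
    fun k => (hu k).2.2.2.2.2.2.1
  have p8 : ∀ k, Pos (mu k) := fun k => (hu k).2.2.2.2.2.2.2.1
  have p9 : ∀ k, ‖mu k‖ ≤ (1 / 4) ^ k := fun k => (hu k).2.2.2.2.2.2.2.2.1
  have p10 : ∀ k, ∃ tol : ℝ, 0 < tol ∧ ∀ z : XX, 0 ≤ z → z ≤ 1 → mu k z ≤ tol →
    ∑ n ∈ Finset.range (NN k), |G (D k * (1 - z)) n - G (D k) n| < τ :=
    fun k => (hu k).2.2.2.2.2.2.2.2.2
  have hNLle : ∀ i k, i < k → NN i ≤ NL k := fun i k hik =>
    Finset.le_sup (f := fun i : Fin k => NN i.1) (Finset.mem_univ (⟨i, hik⟩ : Fin k))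
  clear_value D NN mu NL
  obtain ⟨m, hmsum, hmtail⟩ := tail_est p9
  have hmpos : Pos m := fun y hy => (hmsum y).nonneg fun k => p8 k y hy
  have hmle : ∀ k (z : XX), 0 ≤ z → mu k z ≤ m z := fun k z hz =>
    le_hasSum (hmsum z) k fun j _ => p8 j z hz
  have hd1 : ∀ k, ‖D k‖ ≤ 1 := fun k => (p1 k).trans hε1
  have horth' : ∀ j k, j < k → |m (D j * D k)| ≤ 3 * (1 / 2) ^ j * (1 / 2) ^ k := by
    intro j k hjk
    have h1 := p4 k ⟨j, hjk⟩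
    have h2 := hmtail k (D j * D k)
    have h3 : ‖D j * D k‖ ≤ 1 := by
      refine (norm_mul_le _ _).trans ?_
      have := mul_le_mul (hd1 j) (hd1 k) (norm_nonneg _) (by norm_num : (0 : ℝ) ≤ 1)
      linarith
    have h4 : (1 / 4 : ℝ) ^ k ≤ (1 / 2) ^ j * (1 / 2) ^ k := by
      have e : (1 / 4 : ℝ) ^ k = (1 / 2) ^ k * (1 / 2) ^ k := by
        rw [← mul_pow]; norm_num
      rw [e]
      apply mul_le_mul_of_nonneg_right _ (by positivity)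
      exact pow_le_pow_of_le_one (by norm_num) (by norm_num) hjk.le
    have h5 : |m (D j * D k)| ≤ |m (D j * D k) - (∑ i : Fin k, mu i.1) (D j * D k)| +
        |(∑ i : Fin k, mu i.1) (D j * D k)| := by
      have := abs_add_le (m (D j * D k) - (∑ i : Fin k, mu i.1) (D j * D k))
        ((∑ i : Fin k, mu i.1) (D j * D k))
      rwa [sub_add_cancel] at this
    have h6 : 4 / 3 * (1 / 4 : ℝ) ^ k * ‖D j * D k‖ ≤ 4 / 3 * (1 / 4) ^ k * 1 :=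
      mul_le_mul_of_nonneg_left h3 (by positivity)
    have h7 : (0 : ℝ) < (1 / 4) ^ k := by positivity
    have h8 : |(∑ i : Fin k, mu i.1) (D j * D k)| ≤ (1 / 4) ^ k := h1
    nlinarith
  have horth : ∀ j k, j ≠ k → |m (D j * D k)| ≤ 3 * (1 / 2) ^ j * (1 / 2) ^ k := by
    intro j k hjk
    rcases lt_or_gt_of_ne hjk with h | h
    · exact horth' j k h
    · rw [mul_comm (D j) (D k)]
      refine (horth' k j h).trans (le_of_eq ?_)
      ring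
  -- the sign sequence
  let σ : ℕ → ℝ := fun n => if h : ∃ k, NL k ≤ n ∧ n < NN k then
    (if 0 ≤ G (D (Classical.choose h)) n then 1 else -1) else 0
  have hσ : ∀ n, |σ n| ≤ 1 := by
    intro n
    simp only [σ]
    split_ifs <;> simp
  have hblock : ∀ k n, NL k ≤ n → n < NN k → σ n * G (D k) n = |G (D k) n| := by
    intro k n h1 h2
    have h : ∃ k, NL k ≤ n ∧ n < NN k := ⟨k, h1, h2⟩
    have hk : Classical.choose h = k := by
      have hs := Classical.choose_spec h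
      rcases lt_trichotomy (Classical.choose h) k with h3 | h3 | h3
      · have := hNLle _ _ h3
        omega
      · exact h3
      · have := hNLle _ _ h3
        omega
    simp only [σ]
    rw [dif_pos h, hk]
    by_cases h0 : 0 ≤ G (D k) n
    · rw [if_pos h0, one_mul, abs_of_nonneg h0]
    · rw [if_neg h0, neg_one_mul, abs_of_neg (not_le.1 h0)]
  obtain ⟨Aψ, δψ, hδψ, hAψ⟩ := Tw_nhds (hG (psi σ hσ)) 0 hτ
  obtain ⟨k₀, hk₀⟩ := lemS hmpos (abS_pos (Aψ ∪ A₀)) (Aψ ∪ A₀)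
    (fun a ha y => le_abS _ ha y) D hd1 (C := 3) (by norm_num) horth
    (κ := min δψ δ₀ / 2) (by have := lt_min hδψ hδ₀; positivity)
  obtain ⟨tol, htol, hz⟩ := p10 k₀
  obtain ⟨z, hz0, hz1, hmz, hzA⟩ := hk₀ k₀ le_rfl tol htol
  have hmin : 0 < min δψ δ₀ := lt_min hδψ hδ₀
  have hcl := hz z hz0 hz1 ((hmle k₀ z hz0).trans hmz)
  set d' := D k₀ * (1 - z) with hd'
  have hd'n : ‖d'‖ ≤ ε := (mul_one_sub_norm hz0 hz1 _).trans (p1 k₀)
  have hup : ‖G d'‖ ≤ t₀ := by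
    refine hA₀ d' hd'n fun a ha => ?_
    have := hzA a (by simp [ha])
    have h2 : min δψ δ₀ ≤ δ₀ := min_le_right _ _
    linarith
  have hψ : |psi σ hσ (G d')| < τ := by
    have := hAψ d' (fun a ha => by
      rw [sub_zero]
      have := hzA a (by simp [ha])
      have h2 : min δψ δ₀ ≤ δψ := min_le_left _ _
      linarith)
    simpa [hG0] using this
  have hineq := psi_ineq σ hσ (G d') (NN k₀)
  -- lower bound of the sum
  have hsplit : ∀ F : ℕ → ℝ, ∑ n ∈ Finset.range (NN k₀), F n =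
      ∑ n ∈ Finset.range (NL k₀), F n + ∑ n ∈ Finset.Ico (NL k₀) (NN k₀), F n := fun F =>
    (Finset.sum_range_add_sum_Ico F (p6 k₀)).symm
  have h1 : ∑ n ∈ Finset.Ico (NL k₀) (NN k₀), |G (D k₀) n| > ω - 3 * τ := by
    have a1 := p7 k₀
    have a2 := p5 k₀
    have a3 := p3 k₀
    rw [hsplit] at a1
    linarith
  have h2 : ∑ n ∈ Finset.Ico (NL k₀) (NN k₀), |G d' n - G (D k₀) n| < τ := by
    have a1 := hcl
    rw [hsplit] at a1
    have a2 : 0 ≤ ∑ n ∈ Finset.range (NL k₀), |G d' n - G (D k₀) n| :=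
      Finset.sum_nonneg fun _ _ => abs_nonneg _
    linarith
  have h3 : ∑ n ∈ Finset.range (NN k₀), (|G d' n| + σ n * G d' n) ≥
      2 * ∑ n ∈ Finset.Ico (NL k₀) (NN k₀), |G (D k₀) n| -
      2 * ∑ n ∈ Finset.Ico (NL k₀) (NN k₀), |G d' n - G (D k₀) n| := by
    rw [hsplit]
    have a1 : 0 ≤ ∑ n ∈ Finset.range (NL k₀), (|G d' n| + σ n * G d' n) := by
      refine Finset.sum_nonneg fun n _ => ?_
      have := abs_le.1 (show |σ n * G d' n| ≤ |G d' n| by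
        rw [abs_mul]
        calc |σ n| * |G d' n| ≤ 1 * |G d' n| := mul_le_mul_of_nonneg_right (hσ n) (abs_nonneg _)
          _ = |G d' n| := one_mul _)
      linarith [this.1]
    have a2 : ∑ n ∈ Finset.Ico (NL k₀) (NN k₀),
        (2 * |G (D k₀) n| - 2 * |G d' n - G (D k₀) n|) ≤
        ∑ n ∈ Finset.Ico (NL k₀) (NN k₀), (|G d' n| + σ n * G d' n) := by
      refine Finset.sum_le_sum fun n hn => ?_
      obtain ⟨hn1, hn2⟩ := Finset.mem_Ico.1 hn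
      have b1 := hblock k₀ n hn1 hn2
      have b2 : |σ n * (G d' n - G (D k₀) n)| ≤ |G d' n - G (D k₀) n| := by
        rw [abs_mul]
        calc |σ n| * |G d' n - G (D k₀) n| ≤ 1 * |G d' n - G (D k₀) n| :=
              mul_le_mul_of_nonneg_right (hσ n) (abs_nonneg _)
          _ = _ := one_mul _
      have b3 := (abs_le.1 b2).1
      have b4 : |G (D k₀) n| ≤ |G d' n| + |G d' n - G (D k₀) n| := by
        have := abs_sub_abs_le_abs_sub (G (D k₀) n) (G d' n)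
        rw [abs_sub_comm] at this
        linarith
      rw [mul_sub, b1] at b3
      linarith
    rw [Finset.sum_sub_distrib, ← Finset.mul_sum, ← Finset.mul_sum] at a2
    linarith
  have hψ' := (abs_lt.1 hψ).2
  have : t₀ < ω + τ := ht₀
  linarith

end Pool.Agent.W699.WH
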