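import Pool.Agent.W699.WH.Abs

/-!
# Splitting off a set of small `m`-measure
-/

set_option autoImplicit false

namespace Pool.Agent.W699.WH

open BoundedContinuousFunction Filter

lemma ge_of_app {u v : XX} (h : ∀ n, u n ≤ v n) : u ≤ v := h

theorem split {m a : XX →L[ℝ] ℝ} (hm : Pos m) (ha : Pos a) {η : ℝ} (hη : 0 < η) :
    ∃ K : ℝ, 0 ≤ K ∧ ∀ tol : ℝ, 0 < tol → ∃ z : XX, 0 ≤ z ∧ z ≤ 1 ∧ m z ≤ tol ∧
      ∀ w : XX, 0 ≤ w → w ≤ 1 - z → a w ≤ K * m w + 2 * η := by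
  classical
  have h01 : (0 : XX) ≤ 1 := fun n => by simp
  let T : ℝ → Set ℝ := fun L => {t | ∃ z : XX, 0 ≤ z ∧ z ≤ 1 ∧ t = a (1 - z) + L * m z}
  let β : ℝ → ℝ := fun L => sInf (T L)
  have hT0 : ∀ L, a 1 ∈ T L := fun L => ⟨0, le_rfl, h01, by simp⟩
  have hbelow : ∀ L, 0 ≤ L → ∀ t ∈ T L, 0 ≤ t := by
    rintro L hL t ⟨z, hz0, hz1, rfl⟩
    have h1 := ha (1 - z) (sub_nonneg.2 hz1)
    have h2 := hm z hz0
    positivity
  have hbb : ∀ L, 0 ≤ L → BddBelow (T L) := fun L hL => ⟨0, fun t ht => hbelow L hL t ht⟩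
  have hβ1 : ∀ L, 0 ≤ L → β L ≤ a 1 := fun L hL => csInf_le (hbb L hL) (hT0 L)
  have hβ0 : ∀ L, 0 ≤ L → 0 ≤ β L := fun L hL => le_csInf ⟨_, hT0 L⟩ (hbelow L hL)
  let S : Set ℝ := {t | ∃ L : ℝ, 0 ≤ L ∧ t = β L}
  have hSne : S.Nonempty := ⟨β 0, 0, le_rfl, rfl⟩
  have hSb : BddAbove S := ⟨a 1, by rintro t ⟨L, hL, rfl⟩; exact hβ1 L hL⟩
  obtain ⟨t, ⟨K, hK, rfl⟩, hKt⟩ := exists_lt_of_lt_csSup hSne
    (show sSup S - η < sSup S by linarith)
  refine ⟨K, hK, fun tol htol => ?_⟩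
  set b := sSup S with hb
  have hb0 : 0 ≤ b := (hβ0 0 le_rfl).trans (le_csSup hSb ⟨0, le_rfl, rfl⟩)
  set L : ℝ := max K ((b + η) / tol) with hL
  have hKL : K ≤ L := le_max_left _ _
  have hL0 : 0 < L := lt_of_lt_of_le (by positivity) (le_max_right _ _)
  have hLt : b + η ≤ L * tol := by
    have : (b + η) / tol ≤ L := le_max_right _ _
    rwa [div_le_iff₀ htol] at this
  have hβL : β L ≤ b := le_csSup hSb ⟨L, hL0.le, rfl⟩
  obtain ⟨t, ⟨z, hz0, hz1, rfl⟩, hzt⟩ := exists_lt_of_csInf_lt (s := T L) ⟨_, hT0 L⟩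
    (show sInf (T L) < b + η by
      have : sInf (T L) ≤ b := hβL
      linarith)
  have ha1 := ha (1 - z) (sub_nonneg.2 hz1)
  have hmz := hm z hz0
  refine ⟨z, hz0, hz1, ?_, ?_⟩
  · have : L * m z ≤ L * tol := by linarith
    exact le_of_mul_le_mul_left this hL0
  · intro w hw0 hw1
    have hmem : a (1 - (z + w)) + K * m (z + w) ∈ T K :=
      ⟨z + w, add_nonneg hz0 hw0, by rw [add_comm]; exact le_sub_iff_add_le.1 hw1, rfl⟩
    have h1 : β K ≤ a (1 - (z + w)) + K * m (z + w) := csInf_le (hbb K hK) hmem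
    have h2 : (1 : XX) - z = (1 - (z + w)) + w := by abel
    have h3 : a (1 - z) = a (1 - (z + w)) + a w := by rw [h2, map_add]
    have h4 : K * m z ≤ L * m z := mul_le_mul_of_nonneg_right hKL hmz
    rw [map_add] at h1
    nlinarith

lemma sum_half_le (Q : Finset ℕ) : ∑ k ∈ Q, ((1 : ℝ) / 2) ^ k ≤ 2 := by
  have := Summable.sum_le_tsum Q (fun i _ => by positivity) summable_geometric_two
  rwa [tsum_geometric_two] at this

theorem bessel {m a' : XX →L[ℝ] ℝ} (hm : Pos m) (ha' : Pos a')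
    (d : ℕ → XX) (hd : ∀ k, ‖d k‖ ≤ 1) {C : ℝ} (hC : 0 ≤ C)
    (horth : ∀ j k, j ≠ k → |m (d j * d k)| ≤ C * (1 / 2) ^ j * (1 / 2) ^ k)
    {κ : ℝ} (hκ : 0 < κ) :
    ∃ η : ℝ, 0 < η ∧ ∀ a : XX →L[ℝ] ℝ, (∀ y, |a y| ≤ a' |y|) → ∀ K : ℝ, 0 ≤ K →
      ∀ w₀ : XX, 0 ≤ w₀ → w₀ ≤ 1 →
      (∀ w : XX, 0 ≤ w → w ≤ w₀ → a' w ≤ K * m w + 2 * η) →
      ∀ᶠ k in atTop, |a (d k * w₀)| ≤ κ := by
  classical
  have h01 : (0 : XX) ≤ 1 := fun n => by simp
  set α := a' 1 with hα
  have hα0 : 0 ≤ α := ha' 1 h01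
  have hm1 : 0 ≤ m 1 := hm 1 h01
  set t := κ / (2 * (α + 1)) with ht
  have ht0 : 0 < t := by positivity
  have htα : t * α ≤ κ / 2 := by
    rw [ht, div_mul_eq_mul_div, div_le_iff₀ (by positivity)]
    nlinarith
  refine ⟨t * κ / 4, by positivity, ?_⟩
  intro a hdom K hK w₀ hw0 hw1 hsplit
  by_contra hcon
  rw [Filter.not_eventually] at hcon
  have hinf : {k | ¬ |a (d k * w₀)| ≤ κ}.Infinite := Nat.frequently_atTop_iff_infinite.1 hcon
  obtain ⟨q, hq⟩ := exists_nat_gt (K * (m 1 + 4 * C) / (t * κ / 2) + 1)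
  have hq1 : (1 : ℝ) < q := by
    have : 0 ≤ K * (m 1 + 4 * C) / (t * κ / 2) := by positivity
    linarith
  have hq0 : (0 : ℝ) < q := by linarith
  have hqK : K * (m 1 + 4 * C) < t * κ / 2 * q := by
    have : K * (m 1 + 4 * C) / (t * κ / 2) < q := by linarith
    rw [div_lt_iff₀ (by positivity)] at this
    linarith
  obtain ⟨Q, hQsub, hQcard⟩ := hinf.exists_subset_card_eq q
  let σ : ℕ → ℝ := fun k => if 0 ≤ a (d k * w₀) then 1 else -1
  have hσ : ∀ k, σ k * a (d k * w₀) = |a (d k * w₀)| := by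
    intro k
    by_cases h : 0 ≤ a (d k * w₀)
    · simp [σ, h, abs_of_nonneg h]
    · simp [σ, h, abs_of_neg (not_le.1 h)]
  have hσ1 : ∀ k, |σ k| = 1 := by
    intro k
    by_cases h : 0 ≤ a (d k * w₀)
    · simp [σ, h]
    · simp [σ, h]
  set y : XX := ∑ k ∈ Q, σ k • d k with hy
  have hynorm : ‖y‖ ≤ q := by
    calc ‖y‖ ≤ ∑ k ∈ Q, ‖σ k • d k‖ := norm_sum_le _ _
      _ ≤ ∑ k ∈ Q, 1 := by
          refine Finset.sum_le_sum fun k _ => ?_
          rw [norm_smul, Real.norm_eq_abs, hσ1, one_mul]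
          exact hd k
      _ = q := by simp [hQcard]
  have hyn : ∀ n, |y n| ≤ q := fun n => (norm_coe_le_norm y n).trans hynorm
  -- lower bound
  have hlow : q * κ ≤ a (y * w₀) := by
    have e1 : a (y * w₀) = ∑ k ∈ Q, |a (d k * w₀)| := by
      rw [hy, Finset.sum_mul, map_sum]
      refine Finset.sum_congr rfl fun k _ => ?_
      rw [smul_mul_assoc, map_smul, smul_eq_mul, hσ]
    rw [e1]
    calc (q : ℝ) * κ = ∑ k ∈ Q, κ := by simp [hQcard]
      _ ≤ ∑ k ∈ Q, |a (d k * w₀)| := by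
          refine Finset.sum_le_sum fun k hk => ?_
          have := hQsub hk
          simp only [Set.mem_ofPred_eq, not_le] at this
          exact this.le
  -- upper bound
  have hθ : 0 < q * t := by positivity
  have hup1 : a (y * w₀) ≤ a' ((q * t / 2) • w₀ + (1 / (2 * (q * t))) • (y * y * w₀)) := by
    refine (le_abs_self _).trans ((hdom _).trans (ha'.mono ?_))
    refine ge_of_app fun n => ?_
    have e1 : (|y * w₀| : XX) n = |y n| * w₀ n := by
      have : (|y * w₀| : XX) n = |y n * w₀ n| := by simp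
      rw [this, abs_mul, abs_of_nonneg (nonneg_app hw0 n)]
    have e2 : ((q * t / 2) • w₀ + (1 / (2 * (q * t))) • (y * y * w₀) : XX) n
        = q * t / 2 * w₀ n + 1 / (2 * (q * t)) * (y n * y n * w₀ n) := by simp
    rw [e1, e2]
    have h1 : |y n| ≤ q * t / 2 + 1 / (2 * (q * t)) * (y n * y n) := by
      have h2 : 0 ≤ (|y n| - q * t) ^ 2 := sq_nonneg _
      have h3 : y n * y n = |y n| ^ 2 := by rw [sq_abs]; ring
      have h4 : q * t / 2 + 1 / (2 * (q * t)) * (y n * y n) - |y n|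
          = 1 / (2 * (q * t)) * (|y n| - q * t) ^ 2 := by
        rw [h3]
        have : (q : ℝ) * t ≠ 0 := hθ.ne'
        field_simp
        ring
      have h5 : 0 ≤ 1 / (2 * (q * t)) * (|y n| - q * t) ^ 2 := by positivity
      linarith
    have h6 := nonneg_app hw0 n
    calc |y n| * w₀ n ≤ (q * t / 2 + 1 / (2 * (q * t)) * (y n * y n)) * w₀ n :=
          mul_le_mul_of_nonneg_right h1 h6
      _ = _ := by ring
  rw [map_add, map_smul, map_smul, smul_eq_mul, smul_eq_mul] at hup1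
  have hup2 : a' w₀ ≤ α := ha'.mono hw1
  -- scaled estimate
  have hup3 : a' (y * y * w₀) ≤ K * m (y * y * w₀) + 2 * (t * κ / 4) * q ^ 2 := by
    have hw : a' ((1 / (q : ℝ) ^ 2) • (y * y * w₀)) ≤
        K * m ((1 / (q : ℝ) ^ 2) • (y * y * w₀)) + 2 * (t * κ / 4) := by
      apply hsplit
      · refine ge_of_app fun n => ?_
        have e2 : ((1 / (q : ℝ) ^ 2) • (y * y * w₀) : XX) n
          = 1 / (q : ℝ) ^ 2 * (y n * y n * w₀ n) := by simp
        have h6 := nonneg_app hw0 n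
        rw [e2]
        have h7 : 0 ≤ y n * y n := mul_self_nonneg _
        have : (0 : XX) n = 0 := rfl
        rw [this]
        positivity
      · refine ge_of_app fun n => ?_
        have e2 : ((1 / (q : ℝ) ^ 2) • (y * y * w₀) : XX) n
          = 1 / (q : ℝ) ^ 2 * (y n * y n * w₀ n) := by simp
        have h6 := nonneg_app hw0 n
        rw [e2]
        have h7 : y n * y n ≤ (q : ℝ) ^ 2 := by
          have h8 := hyn n
          have : y n * y n = |y n| ^ 2 := by rw [sq_abs]; ring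
          rw [this]
          exact pow_le_pow_left₀ (abs_nonneg _) h8 2
        have h9 : 1 / (q : ℝ) ^ 2 * (y n * y n * w₀ n) = (y n * y n) / (q : ℝ) ^ 2 * w₀ n := by
          ring
        rw [h9]
        have h10 : (y n * y n) / (q : ℝ) ^ 2 ≤ 1 := by
          rw [div_le_one (by positivity)]; exact h7
        calc (y n * y n) / (q : ℝ) ^ 2 * w₀ n ≤ 1 * w₀ n :=
              mul_le_mul_of_nonneg_right h10 h6
          _ = w₀ n := one_mul _
    rw [map_smul, map_smul, smul_eq_mul, smul_eq_mul] at hw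
    have hq2 : (0 : ℝ) < (q : ℝ) ^ 2 := by positivity
    have := mul_le_mul_of_nonneg_left hw hq2.le
    have e3 : (q : ℝ) ^ 2 * (1 / (q : ℝ) ^ 2 * a' (y * y * w₀)) = a' (y * y * w₀) := by
      field_simp
    have e4 : (q : ℝ) ^ 2 * (K * (1 / (q : ℝ) ^ 2 * m (y * y * w₀)) + 2 * (t * κ / 4))
        = K * m (y * y * w₀) + 2 * (t * κ / 4) * q ^ 2 := by
      field_simp
    rw [e3, e4] at this
    exact this
  have hup4 : m (y * y * w₀) ≤ m (y * y) := by
    refine hm.mono (ge_of_app fun n => ?_)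
    have e2 : (y * y * w₀ : XX) n = (y n * y n) * w₀ n := by simp
    have e3 : (y * y : XX) n = y n * y n := by simp
    rw [e2, e3]
    have h7 : 0 ≤ y n * y n := mul_self_nonneg _
    have h8 : w₀ n ≤ 1 := le_app hw1 n
    nlinarith
  have hup5 : m (y * y) ≤ q * m 1 + 4 * C := by
    have e1 : m (y * y) = ∑ j ∈ Q, ∑ k ∈ Q, σ j * σ k * m (d j * d k) := by
      rw [hy, Finset.sum_mul_sum, map_sum]
      refine Finset.sum_congr rfl fun j _ => ?_
      rw [map_sum]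
      refine Finset.sum_congr rfl fun k _ => ?_
      rw [smul_mul_smul_comm, map_smul, smul_eq_mul]
    have e2 : ∀ j ∈ Q, ∀ k ∈ Q, σ j * σ k * m (d j * d k)
        ≤ (if k = j then m 1 else 0) + C * (1 / 2) ^ j * (1 / 2) ^ k := by
      intro j _ k _
      have hp : 0 ≤ C * (1 / 2) ^ j * (1 / 2) ^ k := by positivity
      by_cases hjk : k = j
      · subst hjk
        have h1 : σ k * σ k = 1 := by
          have := hσ1 k
          rw [← abs_mul_abs_self, this, one_mul]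
        have h2 : m (d k * d k) ≤ m 1 := by
          refine hm.mono (ge_of_app fun n => ?_)
          have e3 : (d k * d k : XX) n = d k n * d k n := by simp
          have e4 : (1 : XX) n = 1 := rfl
          rw [e3, e4]
          have h3 : |d k n| ≤ 1 := (norm_coe_le_norm (d k) n).trans (hd k)
          have h4 : d k n * d k n = |d k n| * |d k n| := (abs_mul_abs_self _).symm
          rw [h4]
          nlinarith [abs_nonneg (d k n)]
        rw [h1, one_mul, if_pos rfl]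
        linarith
      · rw [if_neg hjk, zero_add]
        calc σ j * σ k * m (d j * d k) ≤ |σ j * σ k * m (d j * d k)| := le_abs_self _
          _ = |m (d j * d k)| := by rw [abs_mul, abs_mul, hσ1, hσ1, one_mul, one_mul]
          _ ≤ _ := horth j k (Ne.symm hjk)
    rw [e1]
    calc ∑ j ∈ Q, ∑ k ∈ Q, σ j * σ k * m (d j * d k)
        ≤ ∑ j ∈ Q, ∑ k ∈ Q, ((if k = j then m 1 else 0) + C * (1 / 2) ^ j * (1 / 2) ^ k) :=
          Finset.sum_le_sum fun j hj => Finset.sum_le_sum fun k hk => e2 j hj k hk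
      _ = ∑ j ∈ Q, (m 1 + C * (1 / 2) ^ j * ∑ k ∈ Q, (1 / 2 : ℝ) ^ k) := by
          refine Finset.sum_congr rfl fun j hj => ?_
          rw [Finset.sum_add_distrib, ← Finset.mul_sum]
          congr 1
          rw [Finset.sum_ite_eq' Q j, if_pos hj]
      _ = q * m 1 + C * (∑ k ∈ Q, (1 / 2 : ℝ) ^ k) * ∑ k ∈ Q, (1 / 2 : ℝ) ^ k := by
          rw [Finset.sum_add_distrib, ← Finset.sum_mul, ← Finset.mul_sum]
          simp [hQcard]
      _ ≤ q * m 1 + 4 * C := by
          have h1 := sum_half_le Q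
          have h0 : 0 ≤ ∑ k ∈ Q, (1 / 2 : ℝ) ^ k := Finset.sum_nonneg fun i _ => by positivity
          have : (∑ k ∈ Q, (1 / 2 : ℝ) ^ k) * (∑ k ∈ Q, (1 / 2 : ℝ) ^ k) ≤ 2 * 2 :=
            mul_le_mul h1 h1 h0 (by norm_num)
          nlinarith
  -- conclusion
  have hfin : a' (y * y * w₀) ≤ K * (q * (m 1 + 4 * C)) + 2 * (t * κ / 4) * q ^ 2 := by
    have h1 : m (y * y * w₀) ≤ q * (m 1 + 4 * C) := by
      refine hup4.trans (hup5.trans ?_)
      nlinarith
    have := mul_le_mul_of_nonneg_left h1 hK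
    linarith
  have hfin2 : 1 / (2 * (q * t)) * a' (y * y * w₀) < q * κ / 4 + q * κ / 4 := by
    have h1 : a' (y * y * w₀) < (2 * (q * t)) * (q * κ / 4 + q * κ / 4) := by
      have h2 : K * (q * (m 1 + 4 * C)) < q * (t * κ / 2 * q) := by nlinarith
      nlinarith
    have h3 : 0 < 2 * (q * t) := by positivity
    have e : 1 / (2 * (q * t)) * a' (y * y * w₀) = a' (y * y * w₀) / (2 * (q * t)) := by ring
    rw [e, div_lt_iff₀ h3]
    linarith
  have hfin3 : q * t / 2 * a' w₀ ≤ q * κ / 4 := by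
    have h1 : q * t / 2 * a' w₀ ≤ q * t / 2 * α := by
      apply mul_le_mul_of_nonneg_left hup2; positivity
    nlinarith
  have : (q : ℝ) * κ > 0 := by positivity
  nlinarith

theorem lemS {m a' : XX →L[ℝ] ℝ} (hm : Pos m) (ha' : Pos a') (A : Finset (XX →L[ℝ] ℝ))
    (hdom : ∀ a ∈ A, ∀ y, |a y| ≤ a' |y|)
    (d : ℕ → XX) (hd : ∀ k, ‖d k‖ ≤ 1) {C : ℝ} (hC : 0 ≤ C)
    (horth : ∀ j k, j ≠ k → |m (d j * d k)| ≤ C * (1 / 2) ^ j * (1 / 2) ^ k)
    {κ : ℝ} (hκ : 0 < κ) :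
    ∃ k₀ : ℕ, ∀ k ≥ k₀, ∀ tol : ℝ, 0 < tol → ∃ z : XX, 0 ≤ z ∧ z ≤ 1 ∧ m z ≤ tol ∧
      ∀ a ∈ A, |a (d k * (1 - z))| ≤ κ := by
  classical
  obtain ⟨η₁, hη₁, hbes⟩ := bessel hm ha' d hd hC horth (κ := κ / 2) (by positivity)
  set η := min η₁ (κ / 12) with hη
  have hη0 : 0 < η := lt_min hη₁ (by positivity)
  have hη1 : η ≤ η₁ := min_le_left _ _
  have hη2 : η ≤ κ / 12 := min_le_right _ _
  obtain ⟨K, hK, hsp⟩ := split hm ha' hη0
  set tol₀ := η / (K + 1) with htol0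
  have htol0' : 0 < tol₀ := by positivity
  have hKtol : K * tol₀ ≤ η := by
    rw [htol0, mul_div_assoc', div_le_iff₀ (by positivity)]
    nlinarith
  obtain ⟨z₀, hz00, hz01, hmz0, hz0s⟩ := hsp tol₀ htol0'
  have hw00 : 0 ≤ 1 - z₀ := sub_nonneg.2 hz01
  have hw01 : 1 - z₀ ≤ 1 := sub_le_self _ hz00
  have hev : ∀ᶠ k in atTop, ∀ a ∈ A, |a (d k * (1 - z₀))| ≤ κ / 2 := by
    rw [Filter.eventually_all_finset]
    intro a ha
    refine hbes a (hdom a ha) K hK (1 - z₀) hw00 hw01 fun w hw0 hw1 => ?_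
    have := hz0s w hw0 hw1
    linarith
  obtain ⟨k₀, hk₀⟩ := eventually_atTop.1 hev
  refine ⟨k₀, fun k hk tol htol => ?_⟩
  obtain ⟨z, hz0, hz1, hmz, hzs⟩ := hsp (min tol tol₀) (lt_min htol htol0')
  refine ⟨z, hz0, hz1, hmz.trans (min_le_left _ _), fun a ha => ?_⟩
  have h1 := hk₀ k hk a ha
  have e1 : d k * (1 - z) = d k * (1 - z₀) + d k * (z₀ - z) := by ring
  rw [e1, map_add]
  have p1 : a' ((z₀ - z) ⊔ 0) ≤ 3 * η := by
    have h2 := hzs ((z₀ - z) ⊔ 0) le_sup_right (by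
      refine ge_of_app fun n => ?_
      have e : ((z₀ - z) ⊔ 0 : XX) n = max (z₀ n - z n) 0 := by simp
      have e' : (1 - z : XX) n = 1 - z n := by simp
      have a1 := le_app hz01 n
      have a2 := le_app hz1 n
      have e3 : (1 : XX) n = 1 := rfl
      rw [e3] at a1 a2
      rw [e, e']
      exact max_le (by linarith) (by linarith))
    have h3 : m ((z₀ - z) ⊔ 0) ≤ m z₀ := by
      refine hm.mono (ge_of_app fun n => ?_)
      have e : ((z₀ - z) ⊔ 0 : XX) n = max (z₀ n - z n) 0 := by simp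
      have a1 := nonneg_app hz00 n
      have a2 := nonneg_app hz0 n
      rw [e]
      exact max_le (by linarith) (by linarith)
    have h4 : K * m ((z₀ - z) ⊔ 0) ≤ K * tol₀ := by
      apply mul_le_mul_of_nonneg_left _ hK
      exact h3.trans hmz0
    linarith
  have p2 : a' ((z - z₀) ⊔ 0) ≤ 3 * η := by
    have h2 := hz0s ((z - z₀) ⊔ 0) le_sup_right (by
      refine ge_of_app fun n => ?_
      have e : ((z - z₀) ⊔ 0 : XX) n = max (z n - z₀ n) 0 := by simp
      have e' : (1 - z₀ : XX) n = 1 - z₀ n := by simp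
      have a1 := le_app hz01 n
      have a2 := le_app hz1 n
      have e3 : (1 : XX) n = 1 := rfl
      rw [e3] at a1 a2
      rw [e, e']
      exact max_le (by linarith) (by linarith))
    have h3 : m ((z - z₀) ⊔ 0) ≤ m z := by
      refine hm.mono (ge_of_app fun n => ?_)
      have e : ((z - z₀) ⊔ 0 : XX) n = max (z n - z₀ n) 0 := by simp
      have a1 := nonneg_app hz00 n
      have a2 := nonneg_app hz0 n
      rw [e]
      exact max_le (by linarith) (by linarith)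
    have h4 : K * m ((z - z₀) ⊔ 0) ≤ K * tol₀ := by
      apply mul_le_mul_of_nonneg_left _ hK
      exact h3.trans (hmz.trans (min_le_right _ _))
    linarith
  have p3 : |a (d k * (z₀ - z))| ≤ a' ((z₀ - z) ⊔ 0) + a' ((z - z₀) ⊔ 0) := by
    rw [← map_add]
    refine (hdom a ha _).trans (ha'.mono (ge_of_app fun n => ?_))
    have e : (((z₀ - z) ⊔ 0) + ((z - z₀) ⊔ 0) : XX) n
        = max (z₀ n - z n) 0 + max (z n - z₀ n) 0 := by simp
    have e' : (|d k * (z₀ - z)| : XX) n = |d k n * (z₀ n - z n)| := by simp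
    rw [e, e', abs_mul]
    have h5 : |d k n| ≤ 1 := (norm_coe_le_norm (d k) n).trans (hd k)
    have h6 : |z₀ n - z n| ≤ max (z₀ n - z n) 0 + max (z n - z₀ n) 0 := by
      rw [abs_le]
      have b1 := le_max_left (z₀ n - z n) 0
      have b2 := le_max_right (z₀ n - z n) 0
      have b3 := le_max_left (z n - z₀ n) 0
      have b4 := le_max_right (z n - z₀ n) 0
      constructor <;> linarith
    calc |d k n| * |z₀ n - z n| ≤ 1 * |z₀ n - z n| :=
          mul_le_mul_of_nonneg_right h5 (abs_nonneg _)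
      _ = |z₀ n - z n| := one_mul _
      _ ≤ _ := h6
  calc |a (d k * (1 - z₀)) + a (d k * (z₀ - z))|
      ≤ |a (d k * (1 - z₀))| + |a (d k * (z₀ - z))| := abs_add_le _ _
    _ ≤ κ := by linarith

end Pool.Agent.W699.WH
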