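import Pool.Agent.W699.WH.L1

/-!
# A complemented copy of `ℓ₁` in the Lipschitz functions on `ℕ^(ℕ)` with the sup metric
-/

set_option autoImplicit false

namespace Pool.Agent.W699.WH

open Filter Topology

/-- Finitely supported sequences of natural numbers. -/
def GN : Type := ℕ →₀ ℕ

noncomputable instance : AddCommMonoid GN := inferInstanceAs (AddCommMonoid (ℕ →₀ ℕ))

/-- evaluation -/
def gev (x : GN) (n : ℕ) : ℕ := (show ℕ →₀ ℕ from x) n

/-- standard generators -/
noncomputable def gs (j t : ℕ) : GN := (Finsupp.single j t : ℕ →₀ ℕ)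

lemma gev_add (x y : GN) (n : ℕ) : gev (x + y) n = gev x n + gev y n := rfl

lemma gev_gs (j t n : ℕ) : gev (gs j t) n = if n = j then t else 0 := by
  change (Finsupp.single j t : ℕ →₀ ℕ) n = _
  rw [Finsupp.single_apply]
  by_cases h : j = n
  · simp [h]
  · rw [if_neg h, if_neg (fun h' => h h'.symm)]

lemma gs_add (j t u : ℕ) : gs j t + gs j u = gs j (t + u) := (Finsupp.single_add j t u).symm

lemma gs_zero (j : ℕ) : gs j 0 = 0 := Finsupp.single_zero j

lemma gev_ext {x y : GN} (h : ∀ n, gev x n = gev y n) : x = y := Finsupp.ext h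

lemma gev_bdd (x : GN) (n : ℕ) : gev x n ≤ (show ℕ →₀ ℕ from x).support.sup (gev x) := by
  by_cases h : n ∈ (show ℕ →₀ ℕ from x).support
  · exact Finset.le_sup h
  · have : gev x n = 0 := Finsupp.notMem_support_iff.1 h
    rw [this]; exact Nat.zero_le _

/-- The embedding of `GN` in the bounded sequences. -/
noncomputable def gj (x : GN) : BoundedContinuousFunction ℕ ℝ :=
  BoundedContinuousFunction.ofNormedAddCommGroupDiscrete (fun n => (gev x n : ℝ))
    (((show ℕ →₀ ℕ from x).support.sup (gev x) : ℕ) : ℝ) (fun n => by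
      rw [Real.norm_eq_abs, abs_of_nonneg (Nat.cast_nonneg _)]
      exact_mod_cast gev_bdd x n)

lemma gj_apply (x : GN) (n : ℕ) : gj x n = (gev x n : ℝ) := rfl

lemma gj_inj : Function.Injective gj := by
  intro x y h
  apply gev_ext
  intro n
  have : gj x n = gj y n := by rw [h]
  rw [gj_apply, gj_apply] at this
  exact_mod_cast this

noncomputable instance : MetricSpace GN := MetricSpace.induced gj gj_inj inferInstance

lemma gdist_def (x y : GN) : dist x y = dist (gj x) (gj y) := rfl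

lemma gdist_le {x y : GN} {C : ℝ} (hC : 0 ≤ C) :
    dist x y ≤ C ↔ ∀ n, |(gev x n : ℝ) - gev y n| ≤ C := by
  rw [gdist_def, BoundedContinuousFunction.dist_le hC]
  simp only [Real.dist_eq, gj_apply]

lemma abs_le_gdist (x y : GN) (n : ℕ) : |(gev x n : ℝ) - gev y n| ≤ dist x y :=
  (gdist_le dist_nonneg).1 le_rfl n

instance : Countable GN := inferInstanceAs (Countable (ℕ →₀ ℕ))

instance : Infinite GN := inferInstanceAs (Infinite (ℕ →₀ ℕ))

/-! ### Averages -/

/-- translation -/
noncomputable def tr (h : GN) : (GN → ℝ) →ₗ[ℝ] (GN → ℝ) where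
  toFun g := fun x => g (x + h)
  map_add' _ _ := rfl
  map_smul' _ _ := rfl

lemma tr_apply (h : GN) (g : GN → ℝ) (x : GN) : tr h g x = g (x + h) := rfl

/-- average in direction `j` -/
noncomputable def avg (m j : ℕ) : (GN → ℝ) →ₗ[ℝ] (GN → ℝ) where
  toFun g := fun x => (∑ t ∈ Finset.range (m + 1), g (x + gs j t)) / ((m : ℝ) + 1)
  map_add' f g := by
    funext x
    simp only [Pi.add_apply, Finset.sum_add_distrib, add_div]
  map_smul' c g := by
    funext x
    simp only [Pi.smul_apply, smul_eq_mul, RingHom.id_apply, ← Finset.mul_sum, mul_div_assoc]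

lemma avg_apply (m j : ℕ) (g : GN → ℝ) (x : GN) :
    avg m j g x = (∑ t ∈ Finset.range (m + 1), g (x + gs j t)) / ((m : ℝ) + 1) := rfl

lemma avg_bdd (m j : ℕ) {g : GN → ℝ} {C : ℝ} (hg : ∀ x, |g x| ≤ C) (x : GN) :
    |avg m j g x| ≤ C := by
  rw [avg_apply, abs_div, abs_of_pos (show (0 : ℝ) < (m : ℝ) + 1 by positivity),
    div_le_iff₀ (by positivity)]
  calc |∑ t ∈ Finset.range (m + 1), g (x + gs j t)|
      ≤ ∑ t ∈ Finset.range (m + 1), |g (x + gs j t)| := Finset.abs_sum_le_sum_abs _ _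
    _ ≤ ∑ t ∈ Finset.range (m + 1), C := Finset.sum_le_sum fun t _ => hg _
    _ = C * ((m : ℝ) + 1) := by simp; ring

lemma avg_tr (m j : ℕ) (h : GN) (g : GN → ℝ) : avg m j (tr h g) = tr h (avg m j g) := by
  funext x
  rw [tr_apply, avg_apply, avg_apply]
  congr 1
  refine Finset.sum_congr rfl fun t _ => ?_
  rw [tr_apply]
  congr 1
  abel

lemma avg_diff (m j : ℕ) (g : GN → ℝ) (x : GN) :
    avg m j (tr (gs j 1) g - g) x = (g (x + gs j (m + 1)) - g x) / ((m : ℝ) + 1) := by
  rw [avg_apply]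
  congr 1
  have h := Finset.sum_range_sub (fun t => g (x + gs j t)) (m + 1)
  rw [gs_zero, add_zero] at h
  rw [← h]
  refine Finset.sum_congr rfl fun t _ => ?_
  rw [Pi.sub_apply, tr_apply, add_assoc, gs_add]

/-- iterated averages -/
noncomputable def PP (m : ℕ) : ℕ → (GN → ℝ) →ₗ[ℝ] (GN → ℝ)
  | 0 => LinearMap.id
  | k + 1 => (PP m k).comp (avg m k)

lemma PP_succ (m k : ℕ) (g : GN → ℝ) : PP m (k + 1) g = PP m k (avg m k g) := rfl

lemma PP_bdd (m k : ℕ) : ∀ {g : GN → ℝ} {C : ℝ}, (∀ x, |g x| ≤ C) → ∀ x, |PP m k g x| ≤ C := by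
  induction k with
  | zero => intro g C hg x; exact hg x
  | succ k ih =>
    intro g C hg x
    rw [PP_succ]
    exact ih (avg_bdd m k hg) x

lemma PP_const (m k : ℕ) (c : ℝ) (x : GN) : PP m k (fun _ => c) x = c := by
  induction k with
  | zero => rfl
  | succ k ih =>
    rw [PP_succ]
    have : avg m k (fun _ => c) = fun _ => c := by
      funext y
      rw [avg_apply]
      simp only [Finset.sum_const, Finset.card_range, nsmul_eq_mul]
      push_cast
      field_simp
    rw [this, ih]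

lemma PP_inv (m k : ℕ) : ∀ {g : GN → ℝ} {C : ℝ}, (∀ x, |g x| ≤ C) → ∀ j < k, ∀ x,
    |PP m k (tr (gs j 1) g - g) x| ≤ 2 * C / ((m : ℝ) + 1) := by
  induction k with
  | zero => intro g C _ j hj; exact absurd hj (Nat.not_lt_zero j)
  | succ k ih =>
    intro g C hg j hj x
    rw [PP_succ]
    rcases Nat.lt_succ_iff_lt_or_eq.1 hj with h | h
    · rw [map_sub, avg_tr]
      exact ih (avg_bdd m k hg) j h x
    · subst h
      apply PP_bdd
      intro y
      rw [avg_diff, abs_div, abs_of_pos (show (0 : ℝ) < (m : ℝ) + 1 by positivity)]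
      apply div_le_div_of_nonneg_right _ (by positivity)
      calc |g (y + gs j (m + 1)) - g y| ≤ |g (y + gs j (m + 1))| + |g y| := abs_sub _ _
        _ ≤ 2 * C := by linarith [hg (y + gs j (m + 1)), hg y]

/-- the bounded functions -/
def Bd : Submodule ℝ (GN → ℝ) where
  carrier := {g | ∃ C : ℝ, ∀ x, |g x| ≤ C}
  add_mem' := by
    rintro f g ⟨C, hC⟩ ⟨D, hD⟩
    exact ⟨C + D, fun x => (abs_add_le _ _).trans (add_le_add (hC x) (hD x))⟩
  zero_mem' := ⟨0, fun x => by simp⟩
  smul_mem' := by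
    rintro c g ⟨C, hC⟩
    exact ⟨|c| * C, fun x => by
      rw [Pi.smul_apply, smul_eq_mul, abs_mul]
      exact mul_le_mul_of_nonneg_left (hC x) (abs_nonneg _)⟩

lemma exists_lim {a : ℕ → ℝ} {C : ℝ} (ha : ∀ m, |a m| ≤ C) :
    ∃ x, |x| ≤ C ∧ Tendsto a (hyperfilter ℕ : Filter ℕ) (𝓝 x) := by
  have h1 : IsCompact (Set.Icc (-C) C) := isCompact_Icc
  obtain ⟨x, hx, hx'⟩ := h1.ultrafilter_le_nhds ((hyperfilter ℕ).map a) (by
    rw [Ultrafilter.coe_map, le_principal_iff]
    exact Filter.mem_map.2 (Filter.univ_mem' fun m => abs_le.1 (ha m)))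
  exact ⟨x, abs_le.2 hx, hx'⟩

/-- An invariant mean on the bounded functions on `GN`. -/
theorem exists_mean : ∃ μ : (GN → ℝ) →ₗ[ℝ] ℝ,
    (∀ (g : GN → ℝ) (C : ℝ), (∀ x, |g x| ≤ C) → |μ g| ≤ C) ∧
    (∀ (g : GN → ℝ) (C : ℝ), (∀ x, |g x| ≤ C) → ∀ j, μ (tr (gs j 1) g) = μ g) ∧
    (∀ c : ℝ, μ (fun _ => c) = c) := by
  classical
  have hex : ∀ g : Bd, ∃ x, Tendsto (fun m => PP m m g.1 0) (hyperfilter ℕ : Filter ℕ) (𝓝 x) := by
    rintro ⟨g, C, hC⟩
    obtain ⟨x, _, hx⟩ := exists_lim (a := fun m => PP m m g 0) (fun m => PP_bdd m m hC 0)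
    exact ⟨x, hx⟩
  choose F hF using hex
  let F' : Bd →ₗ[ℝ] ℝ :=
    { toFun := F
      map_add' := by
        intro f g
        refine tendsto_nhds_unique (hF (f + g)) ?_
        refine ((hF f).add (hF g)).congr fun m => ?_
        rw [show (f + g).1 = f.1 + g.1 from rfl, map_add]
        rfl
      map_smul' := by
        intro c g
        refine tendsto_nhds_unique (hF (c • g)) ?_
        refine ((hF g).const_mul c).congr fun m => ?_
        rw [show (c • g).1 = c • g.1 from rfl, map_smul]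
        rfl }
  obtain ⟨μ, hμ⟩ := F'.exists_extend
  have hμF : ∀ g : Bd, μ g.1 = F g := fun g => by
    have : (μ.comp Bd.subtype) g = F' g := by rw [hμ]
    exact this
  have htend : ∀ (g : GN → ℝ) (C : ℝ), (∀ x, |g x| ≤ C) →
      Tendsto (fun m => PP m m g 0) (hyperfilter ℕ : Filter ℕ) (𝓝 (μ g)) := by
    intro g C hC
    have := hF ⟨g, C, hC⟩
    rwa [← hμF] at this
  refine ⟨μ, ?_, ?_, ?_⟩
  · intro g C hC
    refine le_of_tendsto (htend g C hC).abs (Filter.Eventually.of_forall fun m => ?_)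
    exact PP_bdd m m hC 0
  · intro g C hC j
    have hC' : ∀ x, |tr (gs j 1) g x| ≤ C := fun x => hC _
    have h1 := (htend _ C hC').sub (htend g C hC)
    have h2 : Tendsto (fun m : ℕ => 2 * C / ((m : ℝ) + 1)) atTop (𝓝 0) := by
      have := (tendsto_one_div_add_atTop_nhds_zero_nat (𝕜 := ℝ)).const_mul (2 * C)
      rw [mul_zero] at this
      refine this.congr fun m => ?_
      ring
    have h3 : Tendsto (fun m : ℕ => 2 * C / ((m : ℝ) + 1)) (hyperfilter ℕ : Filter ℕ) (𝓝 0) :=
      h2.mono_left (by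
        have := hyperfilter_le_cofinite (α := ℕ)
        rwa [Nat.cofinite_eq_atTop] at this)
    have h4 : Tendsto (fun m => PP m m (tr (gs j 1) g) 0 - PP m m g 0)
        (hyperfilter ℕ : Filter ℕ) (𝓝 0) := by
      refine squeeze_zero_norm' ?_ h3
      have h5 : ∀ᶠ m : ℕ in (hyperfilter ℕ : Filter ℕ), j < m := by
        have h6 : ∀ᶠ m : ℕ in atTop, j < m := eventually_gt_atTop j
        have := hyperfilter_le_cofinite (α := ℕ)
        rw [Nat.cofinite_eq_atTop] at this
        exact this h6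
      filter_upwards [h5] with m hm
      have := PP_inv m m hC j hm 0
      rw [map_sub] at this
      exact this
    have h5 := tendsto_nhds_unique h1 h4
    linarith
  · intro c
    have h1 := htend (fun _ => c) |c| (fun _ => le_rfl)
    refine tendsto_nhds_unique h1 ?_
    refine tendsto_const_nhds.congr fun m => ?_
    rw [PP_const]

end Pool.Agent.W699.WH
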